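import Pool.Agent.V8H74.SI.Tuples

/-!
# Short intervals: consequence for powers
-/

set_option autoImplicit false

namespace Pool.Agent.V8H74.SI

open Finset Module
open Pool.Agent.Results.MP_bbc1fa_nt.GenericRow (IsGenericRow)

theorem not_generic_of {a : ℕ} (ha : 1 ≤ a) {b : ℝ} (hb0 : 0 < b) (hb1 : b ≠ 1)
    (hb : IsAlgebraic ℚ b) {t : ℝ} (ht : Irrational t)
    (hat : IsAlgebraic ℚ ((a : ℝ) ^ t)) (hbt : IsAlgebraic ℚ (b ^ t)) :
    ¬ IsGenericRow (Submodule.span ℚ {Real.log b}) (fun _ : Fin 1 => Real.log a) := by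
  intro h
  have ha0 : (0 : ℝ) < a := by exact_mod_cast ha
  have hlb : Real.log b ≠ 0 := Real.log_ne_zero_of_pos_of_ne_one hb0 hb1
  -- independence of the two logarithms
  have hrange : Set.range (fun _ : Fin 1 => Real.log a) = {Real.log a} := by
    ext y
    simp
  have hnot : Real.log a ∉ (Submodule.span ℚ {Real.log b} : Submodule ℚ ℝ) := by
    intro hmem
    have h1 := h.1
    rw [hrange] at h1
    have h2 : (Submodule.span ℚ {Real.log b} : Submodule ℚ ℝ) ⊔ Submodule.span ℚ {Real.log a} =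
        Submodule.span ℚ {Real.log b} :=
      sup_eq_left.2 ((Submodule.span_singleton_le_iff_mem _ _).2 hmem)
    rw [h2] at h1
    omega
  have hla : Real.log a ≠ 0 := fun h0 => hnot (by rw [h0]; exact Submodule.zero_mem _)
  set M : Matrix (Fin 2) (Fin 2) ℝ := !![Real.log a, Real.log b; t * Real.log a, t * Real.log b]
    with hM
  refine h.2 M ?_ ?_ ⟨0, ?_⟩ ?_ ?_ ?_
  · intro i j
    have e1 : Real.exp (Real.log a) = ((a : ℕ) : ℝ) := Real.exp_log ha0
    have e2 : Real.exp (Real.log b) = b := Real.exp_log hb0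
    have e3 : Real.exp (t * Real.log a) = (a : ℝ) ^ t := by
      rw [Real.rpow_def_of_pos ha0, mul_comm]
    have e4 : Real.exp (t * Real.log b) = b ^ t := by
      rw [Real.rpow_def_of_pos hb0, mul_comm]
    fin_cases i <;> fin_cases j
    · change IsAlgebraic ℚ (Real.exp (Real.log a))
      rw [e1]; exact isAlgebraic_natCast a
    · change IsAlgebraic ℚ (Real.exp (Real.log b))
      rw [e2]; exact hb
    · change IsAlgebraic ℚ (Real.exp (t * Real.log a))
      rw [e3]; exact hat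
    · change IsAlgebraic ℚ (Real.exp (t * Real.log b))
      rw [e4]; exact hbt
  · intro j
    rw [hrange]
    fin_cases j
    · exact Submodule.mem_sup_right (Submodule.mem_span_singleton_self _)
    · exact Submodule.mem_sup_left (Submodule.mem_span_singleton_self _)
  · exact hnot
  · rw [Fintype.linearIndependent_iff]
    intro g hg
    rw [Fin.sum_univ_two] at hg
    have h1 := congrFun hg 0
    have h1' : (g 0 : ℝ) * Real.log a + g 1 * (t * Real.log a) = 0 := by
      simpa [hM, Rat.smul_def] using h1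
    have h2 : (g 0 : ℝ) + g 1 * t = 0 := by
      have : Real.log a * ((g 0 : ℝ) + g 1 * t) = 0 := by linear_combination h1'
      exact (mul_eq_zero.1 this).resolve_left hla
    have h3 : g 1 = 0 := by
      by_contra hne
      have hne' : (g 1 : ℝ) ≠ 0 := by exact_mod_cast hne
      apply ht
      refine ⟨-(g 0 / g 1), ?_⟩
      push_cast
      field_simp
      linarith
    intro i
    fin_cases i
    · rw [h3] at h2
      simp only [Rat.cast_zero, zero_mul, add_zero] at h2
      exact_mod_cast h2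
    · exact h3
  · rw [Fintype.linearIndependent_iff]
    intro g hg
    rw [Fin.sum_univ_two] at hg
    have h1 := congrFun hg 0
    have h1' : (g 0 : ℝ) * Real.log a + g 1 * Real.log b = 0 := by
      simpa [hM, Rat.smul_def] using h1
    have h3 : g 0 = 0 := by
      by_contra hne
      have hne' : (g 0 : ℝ) ≠ 0 := by exact_mod_cast hne
      apply hnot
      rw [Submodule.mem_span_singleton]
      refine ⟨-(g 1 / g 0), ?_⟩
      rw [Rat.smul_def]
      push_cast
      field_simp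
      linarith
    intro i
    fin_cases i
    · exact h3
    · rw [h3] at h1'
      simp only [Rat.cast_zero, zero_mul, zero_add] at h1'
      have := (mul_eq_zero.1 h1').resolve_right hlb
      exact_mod_cast this
  · rw [hM, Matrix.det_fin_two_of]
    ring

open Classical in
theorem clean (ε : ℝ) (hε : 0 < ε) : ∃ η : ℝ, 0 < η ∧ ∃ x₀ : ℕ, ∀ x : ℕ, x₀ ≤ x →
    ∀ h : ℕ, (x : ℝ) ^ (1 - η) ≤ h → ∀ S : Finset ℝ, (S.card : ℝ) ≤ (x : ℝ) ^ η →
    (∀ b ∈ S, 0 < b ∧ b ≠ 1 ∧ IsAlgebraic ℚ b) →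
    (((Ioc x (x + h)).filter (fun a : ℕ => ∃ b ∈ S, ∃ t : ℝ, Irrational t ∧
      IsAlgebraic ℚ ((a : ℝ) ^ t) ∧ IsAlgebraic ℚ (b ^ t))).card : ℝ) ≤ ε * h := by
  obtain ⟨η, hη, -, x₀, H⟩ := short 1 ε hε
  refine ⟨η, hη, x₀, fun x hx h hh S hS hSa => ?_⟩
  have h1 := H x hx h hh (S.image fun b => Submodule.span ℚ {Real.log b})
    (le_trans (by exact_mod_cast Finset.card_image_le) hS) (by
      intro V hV
      obtain ⟨b, -, rfl⟩ := Finset.mem_image.1 hV
      refine ⟨inferInstance, ?_⟩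
      have h4 := finrank_span_finset_le_card (R := ℚ) ({Real.log b} : Finset ℝ)
      rw [Finset.coe_singleton, Finset.card_singleton] at h4
      exact h4)
  refine le_trans ?_ h1
  have h2 := Finset.card_le_card (Finset.monotone_filter_right (Ioc x (x + h))
    (p := fun a : ℕ => a ∈ Ioc x (x + h) ∧ ∃ b ∈ S, ∃ t : ℝ, Irrational t ∧
      IsAlgebraic ℚ ((a : ℝ) ^ t) ∧ IsAlgebraic ℚ (b ^ t))
    (q := fun n : ℕ => ∃ V ∈ S.image fun b => Submodule.span ℚ {Real.log b},
      ¬ IsGenericRow V (fun _ : Fin 1 => Real.log n)) (fun a _ ha => by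
      obtain ⟨ha0, b, hb, t, ht, hat, hbt⟩ := ha
      have := (Finset.mem_Ioc.1 ha0).1
      exact ⟨_, Finset.mem_image_of_mem _ hb, not_generic_of (by omega) (hSa b hb).1
        (hSa b hb).2.1 (hSa b hb).2.2 ht hat hbt⟩))
  have h3 : (Ioc x (x + h)).filter (fun a : ℕ => ∃ b ∈ S, ∃ t : ℝ, Irrational t ∧
      IsAlgebraic ℚ ((a : ℝ) ^ t) ∧ IsAlgebraic ℚ (b ^ t)) ⊆
      (Ioc x (x + h)).filter (fun a : ℕ => a ∈ Ioc x (x + h) ∧ ∃ b ∈ S, ∃ t : ℝ, Irrational t ∧
      IsAlgebraic ℚ ((a : ℝ) ^ t) ∧ IsAlgebraic ℚ (b ^ t)) := by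
    intro a ha
    rw [Finset.mem_filter] at ha ⊢
    exact ⟨ha.1, ha.1, ha.2⟩
  exact_mod_cast (Finset.card_le_card h3).trans h2

end Pool.Agent.V8H74.SI
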