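import Pool.Agent.V8H74.SI.Rate
import Pool.Agent.V8H74.SI.Clean

/-!
# Tuples in short intervals: the rate
-/

set_option autoImplicit false

namespace Pool.Agent.V8H74.SI

open Finset Module
open Pool.Agent.Results.MP_bbc1fa_nt.GenericRow (IsGenericRow)

/-- the rate -/
noncomputable def rho (C x y : ℕ) : ℝ :=
  C * (1 + Real.log (Real.log x / Real.log y)) ^ C * (Real.log y / Real.log x)

theorem rho_base {x y : ℕ} (hx : 16 ≤ x) (hy : Real.log x ≤ y) (hyx : y ≤ x) :
    1 ≤ 1 + Real.log (Real.log x / Real.log y) ∧ 0 ≤ Real.log y / Real.log x := by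
  obtain ⟨-, -, b3, b4, -, -, -⟩ := basic hx hy
  have hy0 : (0 : ℝ) < y := by linarith
  have h1 : Real.log y ≤ Real.log x := Real.log_le_log hy0 (by exact_mod_cast hyx)
  refine ⟨?_, div_nonneg (by linarith) (by linarith)⟩
  have : 0 ≤ Real.log (Real.log x / Real.log y) :=
    Real.log_nonneg (by rw [le_div_iff₀ (by linarith), one_mul]; exact h1)
  linarith

theorem rho_nonneg {C x y : ℕ} (hx : 16 ≤ x) (hy : Real.log x ≤ y) (hyx : y ≤ x) :
    0 ≤ rho C x y := by
  obtain ⟨h1, h2⟩ := rho_base hx hy hyx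
  unfold rho
  have : 0 ≤ (1 + Real.log (Real.log x / Real.log y)) ^ C := pow_nonneg (by linarith) _
  positivity

theorem rho_mono {C C' x y : ℕ} (hC : C ≤ C') (hx : 16 ≤ x) (hy : Real.log x ≤ y) (hyx : y ≤ x) :
    rho C x y ≤ rho C' x y := by
  obtain ⟨h1, h2⟩ := rho_base hx hy hyx
  unfold rho
  have e1 : (C : ℝ) ≤ C' := by exact_mod_cast hC
  have e2 := pow_le_pow_right₀ h1 hC
  have e3 : 0 ≤ (1 + Real.log (Real.log x / Real.log y)) ^ C := pow_nonneg (by linarith) _
  gcongr

open Classical in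
theorem tuples_rate (k : ℕ) : ∀ m : ℕ, ∃ C : ℕ, ∀ x y h : Fin k → ℕ,
    (∀ i, 16 ≤ x i) → (∀ i, Real.log (x i) ≤ y i) → (∀ i, y i ≤ x i) → (∀ i, x i ≤ h i * y i) →
    ∀ W : Finset (Submodule ℚ ℝ), (∀ i, W.card ≤ y i ^ m) →
    (∀ V ∈ W, Module.Finite ℚ V ∧ finrank ℚ V ≤ m) →
    (((Fintype.piFinset (fun i => Ioc (x i) (x i + h i))).filter (fun a : Fin k → ℕ => ∃ V ∈ W,
      ¬ IsGenericRow V (fun i => Real.log (a i)))).card : ℝ) ≤
      (∑ i, rho C (x i) (y i)) * ∏ i, (h i : ℝ) := by
  induction k with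
  | zero =>
    intro m
    refine ⟨0, fun x y h _ _ _ _ W _ _ => ?_⟩
    have : (Fintype.piFinset (fun i => Ioc (x i) (x i + h i))).filter (fun a : Fin 0 → ℕ =>
        ∃ V ∈ W, ¬ IsGenericRow V (fun i => Real.log (a i))) = ∅ := by
      rw [Finset.filter_eq_empty_iff]
      rintro a _ ⟨V, _, hV⟩
      exact hV (generic_zero V _)
    rw [this]
    simp
  | succ k ih =>
    intro m
    obtain ⟨C1, h1⟩ := rate_one m
    obtain ⟨C2, h2⟩ := ih (m + 1)
    refine ⟨max C1 C2, fun x y h hx hy hyx hh W hW hWV => ?_⟩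
    set B := (Fintype.piFinset (fun i => Ioc (x i) (x i + h i))).filter
      (fun a : Fin (k + 1) → ℕ => ∃ V ∈ W, ¬ IsGenericRow V (fun i => Real.log (a i))) with hB
    set bad := (Ioc (x 0) (x 0 + h 0)).filter (fun n : ℕ => ∃ V ∈ W,
      ¬ IsGenericRow V (fun _ : Fin 1 => Real.log n)) with hbad
    have hbadc : (bad.card : ℝ) ≤ rho (max C1 C2) (x 0) (y 0) * h 0 := by
      have h3 := h1 (x 0) (y 0) (h 0) (hx 0) (hy 0) (hyx 0) (hh 0) W (hW 0) hWV
      have h4 := rho_mono (le_max_left C1 C2) (hx 0) (hy 0) (hyx 0)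
      exact le_trans h3 (mul_le_mul_of_nonneg_right h4 (Nat.cast_nonneg _))
    have hy1 : ∀ i, 1 ≤ y i := fun i => by
      obtain ⟨-, -, b3, -, -, -, -⟩ := basic (hx i) (hy i)
      have : (1 : ℝ) ≤ y i := by linarith [hy i]
      exact_mod_cast this
    set Q : ℝ := ∏ i : Fin k, (h i.succ : ℝ) with hQ
    have hQ0 : 0 ≤ Q := Finset.prod_nonneg fun i _ => Nat.cast_nonneg _
    set σ : ℝ := ∑ i : Fin k, rho (max C1 C2) (x i.succ) (y i.succ) with hσ
    have hσ0 : 0 ≤ σ := Finset.sum_nonneg fun i _ => rho_nonneg (hx _) (hy _) (hyx _)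
    have hprod : ∏ i, (h i : ℝ) = h 0 * Q := Fin.prod_univ_succ _
    have hsum0 : ∑ i, rho (max C1 C2) (x i) (y i) = rho (max C1 C2) (x 0) (y 0) + σ := Fin.sum_univ_succ _
    -- the fibres
    have hfib : B.card = ∑ n ∈ Ioc (x 0) (x 0 + h 0), (B.filter (fun a => a 0 = n)).card := by
      apply Finset.card_eq_sum_card_fiberwise
      intro a ha
      exact (Fintype.mem_piFinset.1 (Finset.mem_filter.1 ha).1) 0
    have hinj : ∀ n, Set.InjOn (fun a : Fin (k + 1) → ℕ => fun i : Fin k => a i.succ)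
        (B.filter (fun a => a 0 = n)) := by
      intro n a ha b hb hab
      have ha0 := (Finset.mem_filter.1 (Finset.mem_coe.1 ha)).2
      have hb0 := (Finset.mem_filter.1 (Finset.mem_coe.1 hb)).2
      funext i
      refine Fin.cases ?_ (fun j => ?_) i
      · rw [ha0, hb0]
      · exact congrFun hab j
    have hall : ∀ n, ((B.filter (fun a => a 0 = n)).card : ℝ) ≤ Q := by
      intro n
      have h3 : (B.filter (fun a => a 0 = n)).card ≤
          (Fintype.piFinset (fun i : Fin k => Ioc (x i.succ) (x i.succ + h i.succ))).card := by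
        refine Finset.card_le_card_of_injOn _ ?_ (hinj n)
        intro a ha
        have ha' := Fintype.mem_piFinset.1
          (Finset.mem_filter.1 (Finset.mem_filter.1 (Finset.mem_coe.1 ha)).1).1
        exact Finset.mem_coe.2 (Fintype.mem_piFinset.2 fun i => ha' i.succ)
      rw [Fintype.card_piFinset] at h3
      have h4 : ∏ i : Fin k, (Ioc (x i.succ) (x i.succ + h i.succ)).card = ∏ i : Fin k, h i.succ :=
        Finset.prod_congr rfl fun i _ => by rw [Nat.card_Ioc, Nat.add_sub_cancel_left]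
      rw [h4] at h3
      rw [hQ]
      exact_mod_cast h3
    have hgood : ∀ n ∈ Ioc (x 0) (x 0 + h 0), n ∉ bad →
        ((B.filter (fun a => a 0 = n)).card : ℝ) ≤ σ * Q := by
      intro n hn hnb
      set W' : Finset (Submodule ℚ ℝ) :=
        W.image (fun V => V ⊔ Submodule.span ℚ {Real.log n}) with hW'
      have hW'c : ∀ i : Fin k, W'.card ≤ y i.succ ^ (m + 1) := fun i =>
        Finset.card_image_le.trans ((hW _).trans (Nat.pow_le_pow_right (hy1 _) (Nat.le_succ m)))
      have h3 := h2 (fun i => x i.succ) (fun i => y i.succ) (fun i => h i.succ) (fun i => hx _) (fun i => hy _)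
        (fun i => hyx _) (fun i => hh _) W' hW'c (by
          intro V' hV'
          obtain ⟨V, hV, rfl⟩ := Finset.mem_image.1 hV'
          have hf := (hWV V hV).1
          refine ⟨inferInstance, ?_⟩
          refine (Submodule.finrank_add_le_finrank_add_finrank _ _).trans ?_
          have h4 := finrank_span_finset_le_card (R := ℚ) ({Real.log (n : ℝ)} : Finset ℝ)
          rw [Finset.coe_singleton, Finset.card_singleton] at h4
          exact Nat.add_le_add (hWV V hV).2 h4)
      have h5 : (B.filter (fun a => a 0 = n)).card ≤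
          ((Fintype.piFinset (fun i : Fin k => Ioc (x i.succ) (x i.succ + h i.succ))).filter
            (fun a : Fin k → ℕ => ∃ V ∈ W', ¬ IsGenericRow V (fun i => Real.log (a i)))).card := by
        refine Finset.card_le_card_of_injOn _ ?_ (hinj n)
        intro a ha
        have ha1 := Finset.mem_filter.1 (Finset.mem_coe.1 ha)
        have ha2 := Finset.mem_filter.1 ha1.1
        have ha' := Fintype.mem_piFinset.1 ha2.1
        refine Finset.mem_coe.2 (Finset.mem_filter.2
          ⟨Fintype.mem_piFinset.2 fun i => ha' i.succ, ?_⟩)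
        obtain ⟨V, hV, hVa⟩ := ha2.2
        refine ⟨V ⊔ Submodule.span ℚ {Real.log n}, Finset.mem_image_of_mem _ hV, fun hg => hVa ?_⟩
        have h6 : IsGenericRow V (fun _ : Fin 1 => Real.log n) := by
          by_contra hno
          exact hnb (Finset.mem_filter.2 ⟨hn, V, hV, hno⟩)
        refine generic_tower V (fun i => Real.log (a i)) ?_ ?_
        · simp only [ha1.2]
          exact h6
        · simp only [ha1.2]
          exact hg
      have h7 : (∑ i : Fin k, rho C2 (x i.succ) (y i.succ)) ≤ σ :=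
        Finset.sum_le_sum fun i _ => rho_mono (le_max_right C1 C2) (hx _) (hy _) (hyx _)
      calc ((B.filter (fun a => a 0 = n)).card : ℝ) ≤ _ := by exact_mod_cast h5
        _ ≤ (∑ i : Fin k, rho C2 (x i.succ) (y i.succ)) * Q := h3
        _ ≤ σ * Q := mul_le_mul_of_nonneg_right h7 hQ0
    have hsum : (B.card : ℝ) ≤ ∑ n ∈ Ioc (x 0) (x 0 + h 0),
        ((if n ∈ bad then Q else 0) + σ * Q) := by
      rw [hfib]
      push_cast
      refine Finset.sum_le_sum fun n hn => ?_
      have hε2 : 0 ≤ σ * Q := mul_nonneg hσ0 hQ0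
      split_ifs with hb
      · linarith [hall n]
      · linarith [hgood n hn hb]
    refine hsum.trans ?_
    rw [Finset.sum_add_distrib, Finset.sum_const, Nat.card_Ioc, Nat.add_sub_cancel_left,
      nsmul_eq_mul, hprod, hsum0]
    have h7 : ∑ n ∈ Ioc (x 0) (x 0 + h 0), (if n ∈ bad then Q else 0) = bad.card * Q := by
      rw [← Finset.sum_filter, Finset.sum_const, nsmul_eq_mul]
      congr 2
      congr 1
      ext n
      rw [Finset.mem_filter]
      exact ⟨fun h => h.2, fun h => ⟨(Finset.mem_filter.1 h).1, h⟩⟩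
    rw [h7]
    have h8 : (bad.card : ℝ) * Q ≤ rho (max C1 C2) (x 0) (y 0) * h 0 * Q :=
      mul_le_mul_of_nonneg_right hbadc hQ0
    linarith

end Pool.Agent.V8H74.SI
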