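import Pool.Agent.V8H74.SI.NoCube

/-!
# Sets without cubes in short intervals
-/

set_option autoImplicit false

namespace Pool.Agent.V8H74.SI

open Finset Pool.Agent.TH813.Rough Pool.Agent.TH681.QC

/-- the cell `[c 2 ^ u, (c + 1) 2 ^ u)` -/
def cell (j : ℕ × ℕ) : Finset ℕ := Ico (j.2 * 2 ^ j.1) ((j.2 + 1) * 2 ^ j.1)

theorem card_cell (j : ℕ × ℕ) : (cell j).card = 2 ^ j.1 := by
  unfold cell
  rw [Nat.card_Ico, add_mul, one_mul, Nat.add_sub_cancel_left]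

open Classical in
/-- the box -/
noncomputable def cbox (A : Finset ℕ) (z a : ℕ) {R : ℕ} (j : Fin R → ℕ × ℕ) : Finset (Fin R → ℕ) :=
  (Fintype.piFinset (fun i => cell (j i))).filter (Edge A z a)

theorem cbox_card {A : Finset ℕ} {z a R l : ℕ} (ha : 0 < a) (hz : 0 < z)
    (hA : ¬ HasCube R 0 A) (j : Fin R → ℕ × ℕ) (hj : ∀ i, l ≤ (j i).1) (e : ℝ) (he : 0 < e)
    (he1 : e ≤ 1) (hl : (2 / e) ^ (2 ^ R) ≤ (2 : ℝ) ^ l) :
    ((cbox A z a j).card : ℝ) ≤ e * ∏ i, (2 : ℝ) ^ (j i).1 := by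
  classical
  by_contra hcon
  push Not at hcon
  obtain ⟨p, q, hne, h⟩ := boxes R (fun i => cell (j i)) (Edge A z a) e he he1 (by
      intro i
      rw [card_cell]
      push_cast
      exact hl.trans (pow_le_pow_right₀ (by norm_num) (hj i))) (by
      simp only [card_cell]
      push_cast
      unfold cbox at hcon
      exact hcon.le)
  exact hA (cube_of_box ha hz hne h)

/-- the cells -/
def cells (l s g : ℕ) : Finset (ℕ × ℕ) := (Icc l (g - s)) ×ˢ Ico (2 ^ s) (2 ^ (s + 1))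

theorem cells_card (l s g : ℕ) : (cells l s g).card ≤ (g + 1) * 2 ^ s := by
  unfold cells
  rw [Finset.card_product, Nat.card_Icc, Nat.card_Ico, pow_succ]
  have : 2 ^ s * 2 - 2 ^ s = 2 ^ s := by omega
  rw [this]
  exact Nat.mul_le_mul_right _ (by omega)

/-- every integer of the range is in a cell -/
theorem exists_cell {l s g f : ℕ} (h1 : 2 ^ (l + s) ≤ f) (h2 : f ≤ 2 ^ g) :
    ∃ j ∈ cells l s g, f ∈ cell j := by
  have hf : f ≠ 0 := by
    have : 0 < 2 ^ (l + s) := by positivity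
    omega
  set v := Nat.log 2 f with hv
  have hv1 : 2 ^ v ≤ f := Nat.pow_log_le_self 2 hf
  have hv2 : f < 2 ^ (v + 1) := Nat.lt_pow_succ_log_self (by norm_num) f
  have hvl : l + s ≤ v := by
    have : 2 ^ (l + s) < 2 ^ (v + 1) := lt_of_le_of_lt h1 hv2
    have := (Nat.pow_lt_pow_iff_right (by norm_num : 1 < 2)).1 this
    omega
  have hvg : v ≤ g := (Nat.pow_le_pow_iff_right (by norm_num : 1 < 2)).1 (hv1.trans h2)
  have e1 : 2 ^ v = 2 ^ s * 2 ^ (v - s) := by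
    rw [← pow_add]
    congr 1
    omega
  have e2 : 2 ^ (v + 1) = 2 ^ (s + 1) * 2 ^ (v - s) := by
    rw [← pow_add]
    congr 1
    omega
  have hpos : 0 < 2 ^ (v - s) := by positivity
  refine ⟨(v - s, f / 2 ^ (v - s)), ?_, ?_⟩
  · unfold cells
    rw [Finset.mem_product, mem_Icc, mem_Ico]
    refine ⟨⟨by omega, by omega⟩, ?_, ?_⟩
    · rw [Nat.le_div_iff_mul_le hpos, ← e1]
      exact hv1
    · rw [Nat.div_lt_iff_lt_mul hpos, ← e2]
      exact hv2
  · unfold cell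
    rw [mem_Ico]
    refine ⟨Nat.div_mul_le_self f _, ?_⟩
    have := Nat.lt_mul_div_succ f hpos
    rw [mul_comm] at this
    exact this

/-- the number of `a` for given cells -/
theorem count_a {R : ℕ} (x h s : ℕ) (j : Fin R → ℕ × ℕ) (hc : ∀ i, 2 ^ s ≤ (j i).2)
    (hxh : x ≤ h * 2 ^ s) :
    ((Ioc (x / ∏ i, ((j i).2 + 1) * 2 ^ (j i).1) ((x + h) / ∏ i, (j i).2 * 2 ^ (j i).1)).card : ℝ) ≤
      (R + 1) * h / ∏ i, (((j i).2 : ℝ) * 2 ^ (j i).1) + 1 := by
  set P : ℝ := ∏ i, (((j i).2 : ℝ) * 2 ^ (j i).1) with hP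
  set P' : ℝ := ∏ i, ((((j i).2 : ℝ) + 1) * 2 ^ (j i).1) with hP'
  have h2s : (0 : ℝ) < 2 ^ s := by positivity
  have hc' : ∀ i, (2 : ℝ) ^ s ≤ (j i).2 := fun i => by exact_mod_cast hc i
  have hcpos : ∀ i, (0 : ℝ) < (j i).2 := fun i => lt_of_lt_of_le h2s (hc' i)
  have hP0 : 0 < P := Finset.prod_pos fun i _ => mul_pos (hcpos i) (by positivity)
  have hP'0 : 0 < P' := Finset.prod_pos fun i _ => by positivity
  have e1 : ((∏ i, ((j i).2 + 1) * 2 ^ (j i).1 : ℕ) : ℝ) = P' := by push_cast; rfl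
  have e2 : ((∏ i, (j i).2 * 2 ^ (j i).1 : ℕ) : ℝ) = P := by push_cast; rfl
  have hratio : 1 - R * (1 / (2 : ℝ) ^ s) ≤ P / P' := by
    have h1 : P / P' = ∏ i, (((j i).2 : ℝ) / ((j i).2 + 1)) := by
      rw [hP, hP', ← Finset.prod_div_distrib]
      refine Finset.prod_congr rfl fun i _ => ?_
      have := hcpos i
      field_simp
    rw [h1]
    have h2 : (1 - 1 / (2 : ℝ) ^ s) ^ R ≤ ∏ i, (((j i).2 : ℝ) / ((j i).2 + 1)) := by
      have h3 : (1 - 1 / (2 : ℝ) ^ s) ^ R = ∏ _i : Fin R, (1 - 1 / (2 : ℝ) ^ s) := by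
        rw [Finset.prod_const, Finset.card_univ, Fintype.card_fin]
      rw [h3]
      refine Finset.prod_le_prod (fun i _ => ?_) (fun i _ => ?_)
      · rw [sub_nonneg, div_le_one h2s]
        exact one_le_pow₀ (by norm_num)
      · have h4 := hcpos i
        have h5 : ((j i).2 : ℝ) / ((j i).2 + 1) = 1 - 1 / ((j i).2 + 1) := by
          field_simp
          ring
        rw [h5]
        have h6 : 1 / (((j i).2 : ℝ) + 1) ≤ 1 / (2 : ℝ) ^ s :=
          one_div_le_one_div_of_le h2s (by linarith [hc' i])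
        linarith
    have h3 := one_add_mul_le_pow (a := -(1 / (2 : ℝ) ^ s)) (by
      have : 1 / (2 : ℝ) ^ s ≤ 1 := by
        rw [div_le_one h2s]
        exact one_le_pow₀ (by norm_num)
      linarith) R
    have h4 : (1 + -(1 / (2 : ℝ) ^ s)) ^ R = (1 - 1 / (2 : ℝ) ^ s) ^ R := by ring
    rw [h4] at h3
    linarith
  rw [Nat.card_Ioc]
  have h1 : (((x + h) / ∏ i, (j i).2 * 2 ^ (j i).1 : ℕ) : ℝ) ≤ ((x : ℝ) + h) / P := by
    have := Nat.cast_div_le (α := ℝ) (m := x + h) (n := ∏ i, (j i).2 * 2 ^ (j i).1)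
    rw [e2] at this
    push_cast at this
    exact this
  have h2 : (x : ℝ) / P' < ((x / ∏ i, ((j i).2 + 1) * 2 ^ (j i).1 : ℕ) : ℝ) + 1 := by
    rw [div_lt_iff₀ hP'0, mul_comm, ← e1]
    have hpos : 0 < ∏ i, ((j i).2 + 1) * 2 ^ (j i).1 := Finset.prod_pos fun i _ => by positivity
    exact_mod_cast Nat.lt_mul_div_succ x hpos
  have hx0 : (0 : ℝ) ≤ x := Nat.cast_nonneg _
  have hh0 : (0 : ℝ) ≤ h := Nat.cast_nonneg _
  have h3 : (x : ℝ) / P - x / P' ≤ R * h / P := by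
    have h4 : (x : ℝ) / P' = x / P * (P / P') := by
      field_simp
    rw [h4]
    have h5 : (x : ℝ) / P * (1 - R * (1 / (2 : ℝ) ^ s)) ≤ x / P * (P / P') :=
      mul_le_mul_of_nonneg_left hratio (by positivity)
    have h6 : (x : ℝ) / P * (R * (1 / (2 : ℝ) ^ s)) ≤ R * h / P := by
      have h7 : (x : ℝ) ≤ h * 2 ^ s := by exact_mod_cast hxh
      have h8 : (x : ℝ) / P * (R * (1 / (2 : ℝ) ^ s)) = R * (x / 2 ^ s) / P := by
        field_simp
      rw [h8]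
      have h9 : (x : ℝ) / 2 ^ s ≤ h := by
        rw [div_le_iff₀ h2s]
        exact h7
      gcongr
    linarith
  have h4 : ((x : ℝ) + h) / P = x / P + h / P := add_div _ _ _
  have h5 : ((R : ℝ) + 1) * h / P = R * h / P + h / P := by
    rw [add_mul, one_mul, add_div]
  have hsub : (((x + h) / ∏ i, (j i).2 * 2 ^ (j i).1 -
      x / ∏ i, ((j i).2 + 1) * 2 ^ (j i).1 : ℕ) : ℝ) ≤
      max ((((x + h) / ∏ i, (j i).2 * 2 ^ (j i).1 : ℕ) : ℝ) -
      ((x / ∏ i, ((j i).2 + 1) * 2 ^ (j i).1 : ℕ) : ℝ)) 0 := by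
    rcases le_total (x / ∏ i, ((j i).2 + 1) * 2 ^ (j i).1)
      ((x + h) / ∏ i, (j i).2 * 2 ^ (j i).1) with hle | hle
    · rw [Nat.cast_sub hle]
      exact le_max_left _ _
    · rw [Nat.sub_eq_zero_of_le hle]
      simp
  refine hsub.trans (max_le ?_ (by positivity))
  linarith

end Pool.Agent.V8H74.SI
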