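import Pool.Agent.V8H74.SI.Turan

/-!
# Primes between two powers of two
-/

set_option autoImplicit false

namespace Pool.Agent.V8H74.SI

open Finset

/-- primes in `(2 ^ t, 2 ^ g]` -/
def PR (t g : ℕ) : Finset ℕ := (Ioc (2 ^ t) (2 ^ g)).filter Nat.Prime

theorem PR_prime {t g p : ℕ} (hp : p ∈ PR t g) : p.Prime := (Finset.mem_filter.1 hp).2

theorem PR_card (t g : ℕ) : (PR t g).card ≤ 2 ^ g := by
  unfold PR
  refine (Finset.card_filter_le _ _).trans ?_
  rw [Nat.card_Ioc]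
  exact Nat.sub_le _ _

theorem mu_large : ∃ D : ℝ, ∀ t g : ℕ, 2 ≤ t → t ≤ g →
    Real.log ((g : ℝ) / t) - D ≤ ∑ p ∈ PR t g, (1 : ℝ) / p := by
  obtain ⟨D, hD⟩ := Pool.Agent.Erdos456.Mert.mertens_inv
  refine ⟨2 * D, fun t g ht htg => ?_⟩
  have hp2 : ∀ n : ℕ, 2 ≤ n → 3 ≤ 2 ^ n := fun n hn => by
    calc 3 ≤ 2 ^ 2 := by norm_num
      _ ≤ 2 ^ n := Nat.pow_le_pow_right (by norm_num) hn
  have h1 := abs_le.1 (hD (2 ^ t) (hp2 t ht))
  have h2 := abs_le.1 (hD (2 ^ g) (hp2 g (ht.trans htg)))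
  have hsplit : ∑ p ∈ (Icc 1 (2 ^ g)).filter Nat.Prime, (1 : ℝ) / p =
      ∑ p ∈ (Icc 1 (2 ^ t)).filter Nat.Prime, (1 : ℝ) / p + ∑ p ∈ PR t g, (1 : ℝ) / p := by
    rw [← Finset.sum_union]
    · refine Finset.sum_congr ?_ (fun _ _ => rfl)
      unfold PR
      rw [← Finset.filter_union]
      congr 1
      ext n
      have : 2 ^ t ≤ 2 ^ g := Nat.pow_le_pow_right (by norm_num) htg
      simp only [mem_Icc, mem_union, mem_Ioc]
      have : 0 < 2 ^ t := by positivity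
      omega
    · unfold PR
      refine Finset.disjoint_filter_filter ?_
      rw [Finset.disjoint_left]
      intro n hn hn'
      rw [mem_Icc] at hn
      rw [mem_Ioc] at hn'
      omega
  have ht0 : (0 : ℝ) < t := by exact_mod_cast (by omega : 0 < t)
  have hg0 : (0 : ℝ) < g := by exact_mod_cast (by omega : 0 < g)
  have hl2 : 0 < Real.log 2 := Real.log_pos (by norm_num)
  have e1 : Real.log (Real.log ((2 ^ t : ℕ) : ℝ)) = Real.log t + Real.log (Real.log 2) := by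
    rw [Nat.cast_pow, Real.log_pow, Nat.cast_ofNat, Real.log_mul ht0.ne' hl2.ne']
  have e2 : Real.log (Real.log ((2 ^ g : ℕ) : ℝ)) = Real.log g + Real.log (Real.log 2) := by
    rw [Nat.cast_pow, Real.log_pow, Nat.cast_ofNat, Real.log_mul hg0.ne' hl2.ne']
  rw [e1] at h1
  rw [e2] at h2
  rw [Real.log_div hg0.ne' ht0.ne']
  linarith [h1.1, h1.2, h2.1, h2.2]

end Pool.Agent.V8H74.SI
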