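import Pool.Agent.V8H74.SI.Cells
import Pool.Agent.V8H74.SI.Mu

/-!
# Sets without cubes in short intervals: the count
-/

set_option autoImplicit false

namespace Pool.Agent.V8H74.SI

open Finset Pool.Agent.TH813.Rough Pool.Agent.TH681.QC

theorem many_primes' {P : Finset ℕ} (hP : ∀ p ∈ P, p.Prime) {n R : ℕ}
    (h : R ≤ omP P n) :
    ∃ (a : ℕ) (f : Fin R → ℕ), n = a * ∏ i, f i ∧ (∀ i, f i ∈ P) ∧ StrictMono f := by
  unfold omP at h
  set S := P.filter (fun p => p ∣ n) with hS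
  set e := S.orderEmbOfCardLe h with he
  have hmem : ∀ i, e i ∈ S := fun i => S.orderEmbOfCardLe_mem h i
  have hpr : ∀ i, e i ∈ P ∧ e i ∣ n := fun i => Finset.mem_filter.1 (hmem i)
  have hd : ∏ i, e i ∣ n := by
    apply Finset.prod_dvd_of_isRelPrime
    · intro i _ k _ hik
      have h1 : Nat.Coprime (e i) (e k) :=
        (Nat.coprime_primes (hP _ (hpr i).1) (hP _ (hpr k).1)).2 (e.injective.ne hik)
      exact Nat.coprime_iff_isRelPrime.1 h1
    · intro i _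
      exact (hpr i).2
  obtain ⟨a, ha⟩ := hd
  exact ⟨a, e, by rw [ha]; ring, fun i => (hpr i).1, e.strictMono⟩

open Classical in
theorem count_short {A : Finset ℕ} {x h s l g R : ℕ} (hA : A ⊆ Ioc x (x + h))
    (hcube : ¬ HasCube R 0 A) (e : ℝ) (he : 0 < e) (he1 : e ≤ 1)
    (hl : (2 / e) ^ (2 ^ R) ≤ (2 : ℝ) ^ l) (hxh : x ≤ h * 2 ^ s) (hgh : 2 ^ (g * R) ≤ h)
    (hsg : s ≤ g) (hom : ∀ n ∈ A, R ≤ omP (PR (l + s) g) n) :
    (A.card : ℝ) ≤ e * ((g : ℝ) + 1) ^ R * (R + 2) * h := by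
  set J : Finset (Fin R → ℕ × ℕ) := Fintype.piFinset (fun _ : Fin R => cells l s g) with hJ
  set I : (Fin R → ℕ × ℕ) → Finset ℕ := fun j =>
    Ioc (x / ∏ i, ((j i).2 + 1) * 2 ^ (j i).1) ((x + h) / ∏ i, (j i).2 * 2 ^ (j i).1) with hI
  have hJc : ∀ j ∈ J, ∀ i, 2 ^ s ≤ (j i).2 ∧ l ≤ (j i).1 ∧ (j i).1 ≤ g - s := by
    intro j hj i
    have h1 := (Fintype.mem_piFinset.1 hj) i
    unfold cells at h1
    rw [Finset.mem_product, mem_Icc, mem_Ico] at h1
    exact ⟨h1.2.1, h1.1.1, h1.1.2⟩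
  have hsub : A ⊆ J.biUnion (fun j => (I j).biUnion (fun a =>
        (cbox A 1 a j).image (fun f => a * ∏ i, f i))) := by
    intro n hnA
    have hnx := mem_Ioc.1 (hA hnA)
    obtain ⟨a, f, h1, h2, h3⟩ := many_primes' (fun p hp => PR_prime hp) (hom n hnA)
    have h4 : ∀ i, ∃ j ∈ cells l s g, f i ∈ cell j := by
      intro i
      have h5 := (Finset.mem_filter.1 (h2 i)).1
      rw [mem_Ioc] at h5
      exact exists_cell h5.1.le h5.2
    choose j hj hfj using h4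
    have hfj' : ∀ i, (j i).2 * 2 ^ (j i).1 ≤ f i ∧ f i < ((j i).2 + 1) * 2 ^ (j i).1 := fun i => by
      have := hfj i
      unfold cell at this
      rwa [mem_Ico] at this
    have hjJ : j ∈ J := Fintype.mem_piFinset.2 hj
    rw [mem_biUnion]
    refine ⟨j, hjJ, ?_⟩
    rw [mem_biUnion]
    refine ⟨a, ?_, ?_⟩
    · rw [hI]
      simp only [mem_Ioc]
      have hpos : 0 < ∏ i, (j i).2 * 2 ^ (j i).1 := Finset.prod_pos fun i _ => by
        have h6 := (hJc j hjJ i).1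
        have h7 : 0 < 2 ^ s := by positivity
        exact Nat.mul_pos (by omega) (by positivity)
      have hpos' : 0 < ∏ i, ((j i).2 + 1) * 2 ^ (j i).1 := Finset.prod_pos fun i _ => by positivity
      rw [Nat.div_lt_iff_lt_mul hpos', Nat.le_div_iff_mul_le hpos]
      constructor
      · refine lt_of_lt_of_le hnx.1 ?_
        rw [h1]
        exact Nat.mul_le_mul_left a (prod_le_prod' (fun i _ => (hfj' i).2.le))
      · refine le_trans ?_ hnx.2
        rw [h1]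
        exact Nat.mul_le_mul_left a (prod_le_prod' (fun i _ => (hfj' i).1))
    · rw [mem_image]
      refine ⟨f, ?_, h1.symm⟩
      unfold cbox
      rw [mem_filter, Fintype.mem_piFinset]
      exact ⟨hfj, fun i => ⟨PR_prime (h2 i), (PR_prime (h2 i)).one_lt.le⟩, h3, by
        rw [← h1]; exact hnA⟩
  have h1 : (A.card : ℝ) ≤ ∑ j ∈ J, ∑ a ∈ I j, ((cbox A 1 a j).card : ℝ) := by
    have h2 := (card_le_card hsub).trans card_biUnion_le
    have h3 : A.card ≤ ∑ j ∈ J, ∑ a ∈ I j, (cbox A 1 a j).card := by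
      refine h2.trans (sum_le_sum (fun e _ => ?_))
      refine card_biUnion_le.trans (sum_le_sum (fun m _ => ?_))
      exact card_image_le
    exact_mod_cast h3
  have hh0 : (0 : ℝ) ≤ h := Nat.cast_nonneg _
  have h2s : (0 : ℝ) < 2 ^ s := by positivity
  have hterm : ∀ j ∈ J, ∑ a ∈ I j, ((cbox A 1 a j).card : ℝ) ≤
      e * ((R + 1) * h / ((2 : ℝ) ^ s) ^ R + ((2 : ℝ) ^ (g - s)) ^ R) := by
    intro j hj
    have h2 : ∑ a ∈ I j, ((cbox A 1 a j).card : ℝ) ≤ ∑ a ∈ I j, e * ∏ i, (2 : ℝ) ^ (j i).1 := by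
      refine sum_le_sum fun a ha => ?_
      refine cbox_card ?_ Nat.one_pos hcube j (fun i => (hJc j hj i).2.1) e he he1 hl
      exact lt_of_le_of_lt (Nat.zero_le _) (mem_Ioc.1 ha).1
    refine h2.trans ?_
    rw [sum_const, nsmul_eq_mul]
    have h3 := count_a x h s j (fun i => (hJc j hj i).1) hxh
    set Q : ℝ := ∏ i, (2 : ℝ) ^ (j i).1 with hQ
    have hQ0 : 0 < Q := Finset.prod_pos fun i _ => by positivity
    have hcR : ((2 : ℝ) ^ s) ^ R ≤ ∏ i, ((j i).2 : ℝ) := by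
      have e1 : ((2 : ℝ) ^ s) ^ R = ∏ _i : Fin R, (2 : ℝ) ^ s := by
        rw [Finset.prod_const, Finset.card_univ, Fintype.card_fin]
      rw [e1]
      refine Finset.prod_le_prod (fun i _ => by positivity) (fun i _ => ?_)
      exact_mod_cast (hJc j hj i).1
    have hQR : Q ≤ ((2 : ℝ) ^ (g - s)) ^ R := by
      have e1 : ((2 : ℝ) ^ (g - s)) ^ R = ∏ _i : Fin R, (2 : ℝ) ^ (g - s) := by
        rw [Finset.prod_const, Finset.card_univ, Fintype.card_fin]
      rw [e1]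
      refine Finset.prod_le_prod (fun i _ => by positivity) (fun i _ => ?_)
      exact pow_le_pow_right₀ (by norm_num) (hJc j hj i).2.2
    have hC0 : 0 < ∏ i, ((j i).2 : ℝ) := lt_of_lt_of_le (by positivity) hcR
    have e2 : ∏ i, (((j i).2 : ℝ) * 2 ^ (j i).1) = (∏ i, ((j i).2 : ℝ)) * Q :=
      Finset.prod_mul_distrib
    rw [e2] at h3
    calc ((I j).card : ℝ) * (e * Q)
        ≤ ((R + 1) * h / ((∏ i, ((j i).2 : ℝ)) * Q) + 1) * (e * Q) :=
          mul_le_mul_of_nonneg_right h3 (by positivity)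
      _ = e * ((R + 1) * h / (∏ i, ((j i).2 : ℝ)) + Q) := by
          field_simp
      _ ≤ e * ((R + 1) * h / ((2 : ℝ) ^ s) ^ R + ((2 : ℝ) ^ (g - s)) ^ R) := by
          gcongr
  have hJcard : (J.card : ℝ) ≤ (((g : ℝ) + 1) * 2 ^ s) ^ R := by
    rw [hJ, Fintype.card_piFinset, Finset.prod_const, Finset.card_univ, Fintype.card_fin]
    have := Nat.pow_le_pow_left (cells_card l s g) R
    exact_mod_cast this
  calc (A.card : ℝ) ≤ ∑ j ∈ J, ∑ a ∈ I j, ((cbox A 1 a j).card : ℝ) := h1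
    _ ≤ ∑ j ∈ J, e * ((R + 1) * h / ((2 : ℝ) ^ s) ^ R + ((2 : ℝ) ^ (g - s)) ^ R) :=
        sum_le_sum hterm
    _ = (J.card : ℝ) * (e * ((R + 1) * h / ((2 : ℝ) ^ s) ^ R + ((2 : ℝ) ^ (g - s)) ^ R)) := by
        rw [sum_const, nsmul_eq_mul]
    _ ≤ (((g : ℝ) + 1) * 2 ^ s) ^ R *
          (e * ((R + 1) * h / ((2 : ℝ) ^ s) ^ R + ((2 : ℝ) ^ (g - s)) ^ R)) :=
        mul_le_mul_of_nonneg_right hJcard (by positivity)
    _ = e * ((g : ℝ) + 1) ^ R * ((R + 1) * h + ((2 : ℝ) ^ s * (2 : ℝ) ^ (g - s)) ^ R) := by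
        rw [mul_pow, mul_pow]
        field_simp
    _ ≤ e * ((g : ℝ) + 1) ^ R * ((R + 1) * h + h) := by
        have e3 : ((2 : ℝ) ^ s * (2 : ℝ) ^ (g - s)) ^ R = (2 : ℝ) ^ (g * R) := by
          rw [← pow_add, ← pow_mul]
          congr 2
          omega
        rw [e3]
        have : (2 : ℝ) ^ (g * R) ≤ h := by exact_mod_cast hgh
        gcongr
    _ = e * ((g : ℝ) + 1) ^ R * (R + 2) * h := by ring

end Pool.Agent.V8H74.SI
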