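import Pool.Agent.V8H74.SI.Sieve
import Pool.Agent.V8H74.SI.Mu

/-!
# Few integers with few prime divisors
-/

set_option autoImplicit false

namespace Pool.Agent.V8H74.SI

open Finset

theorem few_short : ∃ C0 : ℕ, 1 ≤ C0 ∧ ∃ D : ℝ, 0 ≤ D ∧ ∀ t J R : ℕ, 2 ≤ t → C0 ≤ t → t ≤ 2 ^ J →
    ∀ w : ℝ, 0 < w → w ≤ 1 → ∀ x h : ℕ,
    (((Ioc x (x + h)).filter (fun n => omP (PR t (2 ^ J)) n < R)).card : ℝ) * w ^ R ≤
      2 * (h * Real.exp (-(1 - w) * (Real.log (((2 ^ J : ℕ) : ℝ) / t) - D))) +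
        ((J : ℝ) + 2) * (2 : ℝ) ^ (2 ^ J * (C0 * C0)) := by
  obtain ⟨C0, hC0, H⟩ := sieve_avg
  obtain ⟨D, hD⟩ := mu_large
  refine ⟨C0, hC0, |D|, abs_nonneg D, fun t J R ht htC htJ w hw0 hw1 x h => ?_⟩
  have h1 := H J (PR t (2 ^ J)) (fun p hp => by
    have h2 := Finset.mem_filter.1 hp
    have h3 := Finset.mem_Ioc.1 h2.1
    have h4 : t < 2 ^ t := Nat.lt_two_pow_self
    exact ⟨h2.2, by omega, h3.2⟩) w hw0.le hw1 x h
  have h2 : (((Ioc x (x + h)).filter (fun n => omP (PR t (2 ^ J)) n < R)).card : ℝ) * w ^ R ≤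
      ∑ n ∈ Ioc x (x + h), w ^ omP (PR t (2 ^ J)) n := by
    calc _ = ∑ n ∈ (Ioc x (x + h)).filter (fun n => omP (PR t (2 ^ J)) n < R), w ^ R := by
          rw [Finset.sum_const, nsmul_eq_mul]
      _ ≤ ∑ n ∈ (Ioc x (x + h)).filter (fun n => omP (PR t (2 ^ J)) n < R),
          w ^ omP (PR t (2 ^ J)) n := by
          refine Finset.sum_le_sum fun n hn => ?_
          exact pow_le_pow_of_le_one hw0.le hw1 (Finset.mem_filter.1 hn).2.le
      _ ≤ _ := Finset.sum_le_sum_of_subset_of_nonneg (Finset.filter_subset _ _)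
          (fun n _ _ => pow_nonneg hw0.le _)
  have h3 : ∏ p ∈ PR t (2 ^ J), (1 - (1 - w) / (p : ℝ)) ≤
      Real.exp (-(1 - w) * (Real.log (((2 ^ J : ℕ) : ℝ) / t) - |D|)) := by
    calc ∏ p ∈ PR t (2 ^ J), (1 - (1 - w) / (p : ℝ))
        ≤ ∏ p ∈ PR t (2 ^ J), Real.exp (-(1 - w) * (1 / (p : ℝ))) := by
          refine Finset.prod_le_prod (fun p hp => ?_) (fun p hp => ?_)
          · have h4 : (1 : ℝ) < p := by exact_mod_cast (PR_prime hp).one_lt
            rw [sub_nonneg, div_le_one (by linarith)]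
            linarith
          · have h4 := Real.add_one_le_exp (-(1 - w) * (1 / (p : ℝ)))
            have h5 : 1 - (1 - w) / (p : ℝ) = -(1 - w) * (1 / (p : ℝ)) + 1 := by ring
            rw [h5]
            exact h4
      _ = Real.exp (-(1 - w) * ∑ p ∈ PR t (2 ^ J), 1 / (p : ℝ)) := by
          rw [← Real.exp_sum, Finset.mul_sum]
      _ ≤ _ := by
          apply Real.exp_le_exp.2
          have h4 := hD t (2 ^ J) ht htJ
          have h5 := le_abs_self D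
          have h6 : Real.log (((2 ^ J : ℕ) : ℝ) / t) - |D| ≤ ∑ p ∈ PR t (2 ^ J), 1 / (p : ℝ) := by
            linarith
          have h7 := mul_le_mul_of_nonneg_left h6 (sub_nonneg.2 hw1)
          linarith
  have h4 : ((2 : ℝ) ^ 2 ^ J) ^ (C0 * C0) = (2 : ℝ) ^ (2 ^ J * (C0 * C0)) := (pow_mul _ _ _).symm
  rw [h4] at h1
  have h5 : (h : ℝ) * ∏ p ∈ PR t (2 ^ J), (1 - (1 - w) / (p : ℝ)) ≤
      h * Real.exp (-(1 - w) * (Real.log (((2 ^ J : ℕ) : ℝ) / t) - |D|)) :=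
    mul_le_mul_of_nonneg_left h3 (Nat.cast_nonneg _)
  linarith

theorem sq_le_pow (q : ℕ) : (q + 1) * (q + 1) ≤ 4 * 2 ^ q := by
  induction q with
  | zero => norm_num
  | succ n ih =>
    rcases Nat.lt_or_ge n 2 with h | h
    · interval_cases n <;> norm_num
    · rw [pow_succ]
      nlinarith

end Pool.Agent.V8H74.SI
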