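import Pool.Agent.V8H74.TP.Two

/-!
# The exceptional integers of a fixed space contain no large multiplicative cube
-/

set_option autoImplicit false

namespace Pool.Agent.V8H74.SI

open Finset Module Pool.Agent.TH813.Rough Pool.Agent.TH681.QC Pool.Agent.R350
open Pool.Agent.Results.MP_bbc1fa_nt.GenericRow (IsGenericRow φ φ_inj finrank_map genericRow_of_good2f)

theorem nocube_aux (m v : ℕ) : ∃ R : ℕ, ∀ (κ C : Type) [Field κ] [Field C] [Algebra κ C]
    (lg : ℕ → C) (L : Submodule κ C),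
    Setup v lg L → ∀ Ω0 Ω1 F : Submodule κ C, Module.Finite κ Ω0 → Module.Finite κ Ω1 →
    Module.Finite κ F → finrank κ Ω0 ≤ m → finrank κ Ω1 ≤ m → finrank κ F ≤ m →
    ∀ A : Finset ℕ, (∀ n ∈ A, lg n ∈ F ∨ Exc L Ω0 Ω1 (lg n)) → ¬ HasCube R 0 A := by
  classical
  refine ⟨gridR m v + m + 1, fun κ C _ _ _ lg L hS Ω0 Ω1 F h1 h2 h3 h4 h5 h6 A hbad => ?_⟩
  rintro ⟨a, p, q, ha, hp, hq, hinj, hcube⟩
  obtain ⟨S, -, hS1, hS2⟩ := grid_avoid hS.hyp hS.one hS.two Ω0 Ω1 F h4 h5 h6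
    (z := lg (a * ∏ i, p i)) (hS.mem _ (Nat.mul_pos ha
      (Finset.prod_pos fun i _ => (hp i).1.pos)))
    (fun i => lg (q i) - lg (p i))
    (fun i => L.sub_mem (hS.mem _ (hq i).1.pos) (hS.mem _ (hp i).1.pos))
    (hS.lglike.indep _ p q (fun i => (hp i).1) (fun i => (hq i).1) hinj)
  have h7 := hbad _ (hcube S)
  rw [hS.lglike.cube a p q ha (fun i => (hp i).1.pos) (fun i => (hq i).1.pos) S] at h7
  rcases h7 with h7 | h7
  · exact hS1 h7
  · exact hS2 h7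

theorem nocube_two (m v : ℕ) : ∃ R : ℕ, ∀ (K κ C : Type) [Field K] [Field κ] [Field C]
    [Algebra K C] [Algebra κ C] [Algebra K κ] [IsScalarTower K κ C] (lg : ℕ → C)
    (L : Submodule κ C), Setup v lg L → ∀ V : Submodule K C, Module.Finite K V →
    finrank K V ≤ m → ∀ A : Finset ℕ, (∀ n ∈ A, 0 < n) →
    (∀ n ∈ A, ¬ Good2 V L lg (fun _ : Fin 1 => n)) → ¬ HasCube R 0 A := by
  classical
  set N := m + 1 + 1 with hN
  obtain ⟨R, hR⟩ := nocube_aux (N * (N + (v + m)) * N + N) (v + m)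
  refine ⟨R, fun K κ C _ _ _ _ _ _ _ lg L hS V hVf hVm A hpos hbad => ?_⟩
  have hspan := spanK_finite (κ := κ) V
  have hS' := hS.sup (Submodule.span κ (V : Set C)) ((finrank_spanK_le V).trans hVm)
  have hP : Pred N (omega0 (κ := κ) V lg 1) := omega0_pred V lg 1 hVm le_rfl
  have hP0 : Pred (N * (N + (v + m)) * N + N) (omega0 (κ := κ) V lg 1) :=
    omega0_pred V lg 1 hVm (by omega)
  have hP1 : Pred (N * (N + (v + m)) * N + N)
      (fun (_ : Fin 1) (_ : Fin 1 → ℕ) => Submodule.span κ ({1} : Set C)) :=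
    const_pred _ span_one_finite (finrank_span_one_le.trans (by omega))
  have hP2 : Pred (N * (N + (v + m)) * N + N) (fun (j : Fin 1) (a : Fin 1 → ℕ) =>
      suppSp (v + m) (L ⊔ Submodule.span κ (V : Set C)) (omega0 (κ := κ) V lg 1 j a) ⊔
        omega0 V lg 1 j a) := supp_pred hS'.hyp hP le_rfl
  set a0 : Fin 1 → ℕ := fun _ => 0 with ha0
  refine hR κ C lg (L ⊔ Submodule.span κ (V : Set C)) hS' (omega0 V lg 1 0 a0)
    (Submodule.span κ {1}) (suppSp (v + m) (L ⊔ Submodule.span κ (V : Set C))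
      (omega0 (κ := κ) V lg 1 0 a0) ⊔ omega0 V lg 1 0 a0)
    (hP0.fin _ _) (hP1.fin 0 a0) (hP2.fin 0 a0) (hP0.le _ _) (hP1.le 0 a0) (hP2.le 0 a0) A ?_
  intro n hn
  by_contra hno
  apply hbad n hn
  refine good2_of_chain V hS' (fun _ : Fin 1 => n) (fun _ => hpos n hn) ?_
  intro j hj
  have hj0 : j = 0 := Subsingleton.elim _ _
  subst hj0
  unfold BadAt at hj
  beta_reduce at hj
  rw [hP0.dep 0 (fun _ => n) a0 (fun i hi => absurd hi (Fin.not_lt_zero i))] at hj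
  exact hno hj

theorem nocube (m : ℕ) : ∃ R : ℕ, ∀ V : Submodule ℚ ℝ, Module.Finite ℚ V → finrank ℚ V ≤ m →
    ∀ A : Finset ℕ, (∀ n ∈ A, 0 < n) →
    (∀ n ∈ A, ¬ IsGenericRow V (fun _ : Fin 1 => Real.log n)) → ¬ HasCube R 0 A := by
  obtain ⟨R, hR⟩ := nocube_two m 0
  refine ⟨R, fun V hVf hVm A hpos hbad => ?_⟩
  have hVf' : Module.Finite ℚ (V.map φ) := Module.Finite.map V φ
  refine hR ℚ (algebraicClosure ℚ ℂ) ℂ
    (fun n : ℕ => (Real.log n : ℂ)) _ Pool.Agent.R350.setup_complex (V.map φ) hVf'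
    (by rw [finrank_map]; exact hVm) A hpos ?_
  intro n hn hgood
  exact hbad n hn (genericRow_of_good2f V _ hgood)

end Pool.Agent.V8H74.SI
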