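import Pool.Agent.V8H74.SI.Few
import Pool.Agent.V8H74.SI.Count

/-!
# Short intervals: the rate
-/

set_option autoImplicit false

namespace Pool.Agent.V8H74.SI

open Finset Module Pool.Agent.TH813.Rough Pool.Agent.TH681.QC
open Pool.Agent.Results.MP_bbc1fa_nt.GenericRow (IsGenericRow)

/-- facts on `T = log₂ x` and `u = log₂ y` -/
theorem basic {x y : ℕ} (hx : 16 ≤ x) (hy : Real.log x ≤ y) :
    Real.log x ≤ (Nat.log 2 x : ℝ) + 1 ∧ (Nat.log 2 x : ℝ) ≤ 2 * Real.log x ∧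
    2 ≤ Real.log x ∧ 1 ≤ Real.log y ∧ ((Nat.log 2 y : ℕ) : ℝ) + 2 ≤ 4 * Real.log y ∧
    Real.log y ≤ (Nat.log 2 y : ℝ) + 1 ∧ (Nat.log 2 x : ℝ) + 1 ≤ 2 ^ (Nat.log 2 y + 2) := by
  have hx0 : (0 : ℝ) < x := by exact_mod_cast (by omega : 0 < x)
  have hl2a := Real.log_two_gt_d9
  have hl2b := Real.log_two_lt_d9
  have hlx16 : 2.7724 ≤ Real.log x := by
    have h1 : Real.log 16 ≤ Real.log x := Real.log_le_log (by norm_num) (by exact_mod_cast hx)
    have h2 : Real.log 16 = 4 * Real.log 2 := by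
      rw [show (16 : ℝ) = 2 ^ 4 by norm_num, Real.log_pow]; norm_num
    linarith
  have hy0 : (0 : ℝ) < y := by linarith
  have hyn : y ≠ 0 := by rintro rfl; simp at hy0
  have hly : 1 ≤ Real.log y := by
    rw [Real.le_log_iff_exp_le hy0]
    have := Real.exp_one_lt_d9
    linarith
  have h1 : 2 ^ (Nat.log 2 x) ≤ x := Nat.pow_log_le_self 2 (by omega)
  have h2 : x < 2 ^ (Nat.log 2 x + 1) := Nat.lt_pow_succ_log_self (by norm_num) x
  have h3 : 2 ^ (Nat.log 2 y) ≤ y := Nat.pow_log_le_self 2 hyn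
  have h4 : y < 2 ^ (Nat.log 2 y + 1) := Nat.lt_pow_succ_log_self (by norm_num) y
  have e1 : (Nat.log 2 x : ℝ) * Real.log 2 ≤ Real.log x := by
    have : Real.log ((2 : ℝ) ^ (Nat.log 2 x)) ≤ Real.log x :=
      Real.log_le_log (by positivity) (by exact_mod_cast h1)
    rwa [Real.log_pow] at this
  have e2 : Real.log x ≤ ((Nat.log 2 x : ℝ) + 1) * Real.log 2 := by
    have : Real.log x ≤ Real.log ((2 : ℝ) ^ (Nat.log 2 x + 1)) :=
      Real.log_le_log hx0 (by exact_mod_cast h2.le)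
    rw [Real.log_pow] at this
    push_cast at this
    exact this
  have e3 : (Nat.log 2 y : ℝ) * Real.log 2 ≤ Real.log y := by
    have : Real.log ((2 : ℝ) ^ (Nat.log 2 y)) ≤ Real.log y :=
      Real.log_le_log (by positivity) (by exact_mod_cast h3)
    rwa [Real.log_pow] at this
  have e4 : Real.log y ≤ ((Nat.log 2 y : ℝ) + 1) * Real.log 2 := by
    have : Real.log y ≤ Real.log ((2 : ℝ) ^ (Nat.log 2 y + 1)) :=
      Real.log_le_log hy0 (by exact_mod_cast h4.le)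
    rw [Real.log_pow] at this
    push_cast at this
    exact this
  have hT0 : (0 : ℝ) ≤ Nat.log 2 x := Nat.cast_nonneg _
  have hu0 : (0 : ℝ) ≤ Nat.log 2 y := Nat.cast_nonneg _
  refine ⟨by nlinarith, by nlinarith, by linarith, hly, by nlinarith, by nlinarith, ?_⟩
  have h5 : (y : ℝ) ≤ 2 * 2 ^ (Nat.log 2 y) := by
    have : (y : ℝ) ≤ 2 ^ (Nat.log 2 y + 1) := by exact_mod_cast h4.le
    rw [pow_succ] at this
    linarith
  have h6 : (1 : ℝ) ≤ 2 ^ (Nat.log 2 y) := one_le_pow₀ (by norm_num)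
  rw [pow_add]
  nlinarith

open Classical in
/-- **The rate in short intervals.** -/
theorem rate_one (m : ℕ) : ∃ C : ℕ, ∀ x y h : ℕ, 16 ≤ x → Real.log x ≤ y → y ≤ x → x ≤ h * y →
    ∀ W : Finset (Submodule ℚ ℝ), W.card ≤ y ^ m →
    (∀ V ∈ W, Module.Finite ℚ V ∧ finrank ℚ V ≤ m) →
    (((Ioc x (x + h)).filter (fun n : ℕ => ∃ V ∈ W,
      ¬ IsGenericRow V (fun _ : Fin 1 => Real.log n))).card : ℝ) ≤
      C * (1 + Real.log (Real.log x / Real.log y)) ^ C * (Real.log y / Real.log x) * h := by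
  obtain ⟨R, hR⟩ := nocube m
  obtain ⟨C0, hC0, D, hD0, hfew⟩ := few_short
  set c2 : ℕ := 2 ^ R * (m + R + 1) + 1 + C0 with hc2
  set c3 : ℕ := 2 * (C0 * C0 + R + 2) with hc3
  set c4 : ℕ := 16 * c2 * c3 + 64 with hc4
  have hc2' : 1 ≤ c2 := by omega
  have hc3' : 4 ≤ c3 := by omega
  set K : ℝ := 2 * (Real.exp (1 + D) * (16 * c2 * c3)) + 200 + 2 * (R + 2) + c4 with hK
  have hK0 : 0 ≤ K := by positivity
  refine ⟨⌈K⌉₊ + R, fun x y h hx hy hyx hxh W hW hWV => ?_⟩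
  obtain ⟨b1, b2, b3, b4, b5, b6, b7⟩ := basic hx hy
  have hyn : y ≠ 0 := by
    rintro rfl
    norm_num at b4
  have hT1 : 2 ^ (Nat.log 2 x) ≤ x := Nat.pow_log_le_self 2 (by omega)
  have hu2 : y < 2 ^ (Nat.log 2 y + 1) := Nat.lt_pow_succ_log_self (by norm_num) y
  set T := Nat.log 2 x with hT
  set u := Nat.log 2 y with hu
  clear_value T u
  set X := Real.log x with hX
  set Y := Real.log y with hY
  have hYX : Y ≤ X := Real.log_le_log (by exact_mod_cast Nat.pos_of_ne_zero hyn)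
    (by exact_mod_cast hyx)
  clear_value X Y
  have hX0 : 0 < X := by linarith
  have hY0 : 0 < Y := by linarith
  set Λ := Real.log (X / Y) with hΛ
  have hΛ0 : 0 ≤ Λ := Real.log_nonneg (by rw [le_div_iff₀ hY0, one_mul]; exact hYX)
  have hh0 : (0 : ℝ) ≤ h := Nat.cast_nonneg _
  have hρ0 : 0 < Y / X := by positivity
  have h1Λ : 1 ≤ 1 + Λ := by linarith
  -- it suffices to prove the bound with `K`
  suffices hmain : (((Ioc x (x + h)).filter (fun n : ℕ => ∃ V ∈ W,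
      ¬ IsGenericRow V (fun _ : Fin 1 => Real.log n))).card : ℝ) ≤ K * (1 + Λ) ^ R * (Y / X) * h by
    refine hmain.trans ?_
    have h1 : K ≤ ((⌈K⌉₊ + R : ℕ) : ℝ) := by
      push_cast
      have := Nat.le_ceil K
      have : (0 : ℝ) ≤ R := Nat.cast_nonneg _
      linarith
    have h2 : (1 + Λ) ^ R ≤ (1 + Λ) ^ (⌈K⌉₊ + R) := pow_le_pow_right₀ h1Λ (Nat.le_add_left _ _)
    gcongr
  have hR1 : 1 ≤ (1 + Λ) ^ R := one_le_pow₀ h1Λ
  have htriv : (((Ioc x (x + h)).filter (fun n : ℕ => ∃ V ∈ W,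
      ¬ IsGenericRow V (fun _ : Fin 1 => Real.log n))).card : ℝ) ≤ h := by
    have := Finset.card_filter_le (Ioc x (x + h)) (fun n : ℕ => ∃ V ∈ W,
      ¬ IsGenericRow V (fun _ : Fin 1 => Real.log n))
    rw [Nat.card_Ioc, Nat.add_sub_cancel_left] at this
    exact_mod_cast this
  have hc40 : (0 : ℝ) ≤ c4 := Nat.cast_nonneg _
  rcases le_or_gt X (c4 * Y) with hcase | hcase
  · refine htriv.trans ?_
    have h1 : 1 ≤ c4 * (Y / X) := by
      rw [mul_div_assoc', le_div_iff₀ hX0, one_mul]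
      exact hcase
    have hKc : (c4 : ℝ) ≤ K := by
      rw [hK]
      have : 0 ≤ 2 * (Real.exp (1 + D) * (16 * c2 * c3)) + 200 + 2 * ((R : ℝ) + 2) := by positivity
      linarith
    have h2 : 1 ≤ K * (1 + Λ) ^ R * (Y / X) := by
      calc 1 ≤ c4 * (Y / X) := h1
        _ ≤ K * (Y / X) := by gcongr
        _ = K * 1 * (Y / X) := by ring
        _ ≤ _ := by gcongr
    calc (h : ℝ) = 1 * h := (one_mul _).symm
      _ ≤ _ := by gcongr
  -- the parameters
  have hc4r : (c4 : ℝ) = 16 * c2 * c3 + 64 := by rw [hc4]; push_cast; ring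
  have hc2r : (1 : ℝ) ≤ c2 := by exact_mod_cast hc2'
  have hc3r : (4 : ℝ) ≤ c3 := by exact_mod_cast hc3'
  have hc23 : (c3 : ℝ) ≤ c2 * c3 := by nlinarith
  have hXbig : (16 * c2 * c3 + 64 : ℝ) * Y < X := by rw [← hc4r]; exact hcase
  have hXbig' : (16 * c2 * c3 + 64 : ℝ) ≤ X := by
    have : (16 * c2 * c3 + 64 : ℝ) * 1 ≤ (16 * c2 * c3 + 64 : ℝ) * Y := by gcongr
    linarith
  have hTX : X / 2 ≤ T := by linarith
  have hTc3 : c3 ≤ T := by
    have : (c3 : ℝ) ≤ T := by linarith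
    exact_mod_cast this
  set J := Nat.log 2 (T / c3) with hJ
  have hdiv : T / c3 ≠ 0 := by
    have : 0 < T / c3 := Nat.div_pos hTc3 (by omega)
    omega
  have hJ1 : 2 ^ J ≤ T / c3 := Nat.pow_log_le_self 2 hdiv
  have hJ2 : T / c3 < 2 ^ (J + 1) := Nat.lt_pow_succ_log_self (by norm_num) _
  clear_value J
  set g := 2 ^ J with hg
  have hgc3 : g * c3 ≤ T := (Nat.mul_le_mul_right c3 hJ1).trans (Nat.div_mul_le_self T c3)
  have hgbig : T < c3 * (2 * g) := by
    have h1 : T < c3 * (T / c3 + 1) := Nat.lt_mul_div_succ T (by omega)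
    have h2 : T / c3 + 1 ≤ 2 * g := by rw [hg]; rw [pow_succ] at hJ2; omega
    exact lt_of_lt_of_le h1 (Nat.mul_le_mul_left c3 h2)
  have hJg : J < g := by rw [hg]; exact Nat.lt_two_pow_self
  set E := (u + 2) * (m + R + 1) with hE
  set l := E * 2 ^ R with hl
  set s := u + 1 + C0 with hs
  have ht_le : l + s ≤ c2 * (u + 2) := by
    rw [hl, hs, hE, hc2]
    nlinarith
  have htr : ((l + s : ℕ) : ℝ) ≤ 4 * c2 * Y := by
    have h1 : ((l + s : ℕ) : ℝ) ≤ c2 * ((u : ℝ) + 2) := by exact_mod_cast ht_le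
    nlinarith
  have htlow : Y ≤ ((l + s : ℕ) : ℝ) := by
    have h1 : u + 1 ≤ l + s := by omega
    have h2 : ((u : ℝ) + 1) ≤ ((l + s : ℕ) : ℝ) := by exact_mod_cast h1
    linarith
  have hgr : X ≤ 4 * c3 * (g : ℝ) := by
    have h1 : (T : ℝ) ≤ c3 * (2 * g) := by exact_mod_cast hgbig.le
    linarith
  have htg' : 4 * (c3 : ℝ) * ((l + s : ℕ) : ℝ) ≤ X := by
    have h1 : 4 * (c3 : ℝ) * ((l + s : ℕ) : ℝ) ≤ 4 * (c3 : ℝ) * (4 * c2 * Y) := by gcongr
    nlinarith
  have htg : l + s ≤ g := by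
    have h1 : 4 * (c3 : ℝ) * ((l + s : ℕ) : ℝ) ≤ 4 * c3 * (g : ℝ) := htg'.trans hgr
    have h2 : ((l + s : ℕ) : ℝ) ≤ g := le_of_mul_le_mul_left h1 (by positivity)
    exact_mod_cast h2
  have ht2 : 2 ≤ l + s := by omega
  have htC : C0 ≤ l + s := by omega
  have ht0 : (0 : ℝ) < ((l + s : ℕ) : ℝ) := by exact_mod_cast (by omega : 0 < l + s)
  have hg0 : (0 : ℝ) < (g : ℝ) := by
    have : 0 < g := by rw [hg]; positivity
    exact_mod_cast this
  have hgT : (g : ℝ) ≤ 2 * X := by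
    have h1 : g ≤ T := by nlinarith
    have h2 : (g : ℝ) ≤ T := by exact_mod_cast h1
    linarith
  -- the weight
  set w : ℝ := 1 / (1 + Λ) with hw
  have hw0 : 0 < w := by positivity
  have hw1 : w ≤ 1 := by rw [hw, div_le_one (by linarith)]; linarith
  set L := Real.log ((g : ℝ) / ((l + s : ℕ) : ℝ)) with hL
  have hLup : L ≤ 1 + Λ := by
    have h1 : (g : ℝ) / ((l + s : ℕ) : ℝ) ≤ 2 * (X / Y) := by
      rw [div_le_iff₀ ht0]
      calc (g : ℝ) ≤ 2 * X := hgT
        _ = 2 * (X / Y) * Y := by field_simp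
        _ ≤ _ := by gcongr
    have h2 : L ≤ Real.log (2 * (X / Y)) := Real.log_le_log (by positivity) h1
    rw [Real.log_mul (by norm_num) (by positivity)] at h2
    have := Real.log_two_lt_d9
    linarith
  have hexpL : Real.exp (-L) ≤ 16 * c2 * c3 * (Y / X) := by
    rw [hL, Real.exp_neg, Real.exp_log (by positivity), inv_div, div_le_iff₀ hg0]
    calc ((l + s : ℕ) : ℝ) ≤ 4 * c2 * Y := htr
      _ = 16 * c2 * c3 * (Y / X) * (X / (4 * c3)) := by field_simp; ring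
      _ ≤ 16 * c2 * c3 * (Y / X) * g := by
          have : X / (4 * c3) ≤ g := by
            rw [div_le_iff₀ (by positivity)]
            linarith
          gcongr
  have hexp : Real.exp (-(1 - w) * (L - D)) ≤ Real.exp (1 + D) * (16 * c2 * c3 * (Y / X)) := by
    have h1 : -(1 - w) * (L - D) ≤ (1 + D) + -L := by
      have h2 : w * L ≤ 1 := by
        calc w * L ≤ w * (1 + Λ) := by gcongr
          _ = 1 := by rw [hw]; field_simp
      have h3 : 0 ≤ w * D := by positivity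
      nlinarith
    calc Real.exp (-(1 - w) * (L - D)) ≤ Real.exp ((1 + D) + -L) := Real.exp_le_exp.2 h1
      _ = Real.exp (1 + D) * Real.exp (-L) := Real.exp_add _ _
      _ ≤ _ := by gcongr
  -- the size of `h`
  have hu4 : 4 * (u + 1) ≤ T := by
    have h1 : 4 * ((u : ℝ) + 1) ≤ T := by nlinarith
    exact_mod_cast h1
  have hTh : 2 ^ T ≤ h * 2 ^ (u + 1) :=
    hT1.trans (hxh.trans (Nat.mul_le_mul_left h hu2.le))
  set q := T / 4 with hq
  have hq1 : 4 * q ≤ T := Nat.mul_div_le T 4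
  have hq2 : T < 4 * (q + 1) := Nat.lt_mul_div_succ T (by norm_num)
  have huq : u + 1 ≤ q := by omega
  clear_value q
  have h3q : 2 ^ (3 * q) ≤ h := by
    have h1 : 2 ^ (3 * q) * 2 ^ (u + 1) ≤ h * 2 ^ (u + 1) := by
      refine le_trans ?_ hTh
      rw [← pow_add]
      exact Nat.pow_le_pow_right (by norm_num) (by omega)
    exact Nat.le_of_mul_le_mul_right h1 (by positivity)
  have hgq : ∀ c : ℕ, c ≤ C0 * C0 + R + 2 → g * c ≤ 2 * q + 1 := by
    intro c hc
    have h1 : g * c * 2 ≤ T := by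
      calc g * c * 2 = g * (2 * c) := by ring
        _ ≤ g * c3 := Nat.mul_le_mul_left g (by omega)
        _ ≤ T := hgc3
    omega
  have hgR : 2 ^ (g * R) ≤ h := by
    refine le_trans (Nat.pow_le_pow_right (by norm_num) ?_) h3q
    have := hgq R (by omega)
    omega
  have herr : ((J : ℝ) + 2) * (2 : ℝ) ^ (g * (C0 * C0)) ≤ 200 * (Y / X) * h := by
    have h1 : (J + 2) * (T + 2) * 2 ^ (g * (C0 * C0)) ≤ 200 * h := by
      have e1 : J + 2 ≤ T + 2 := by
        have : g ≤ T := by nlinarith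
        omega
      have e2 : T + 2 ≤ 5 * (q + 1) := by omega
      have e3 : 2 ^ (g * (C0 * C0)) ≤ 2 ^ (2 * q + 1) :=
        Nat.pow_le_pow_right (by norm_num) (hgq _ (by omega))
      calc (J + 2) * (T + 2) * 2 ^ (g * (C0 * C0))
          ≤ (5 * (q + 1)) * (5 * (q + 1)) * 2 ^ (2 * q + 1) :=
            Nat.mul_le_mul (Nat.mul_le_mul (e1.trans e2) e2) e3
        _ = 50 * ((q + 1) * (q + 1)) * 2 ^ (2 * q) := by rw [pow_succ]; ring
        _ ≤ 50 * (4 * 2 ^ q) * 2 ^ (2 * q) := by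
            have := sq_le_pow q
            gcongr
        _ = 200 * 2 ^ (3 * q) := by
            rw [show 3 * q = q + 2 * q by ring, pow_add]
            ring
        _ ≤ 200 * h := Nat.mul_le_mul_left _ h3q
    have h2 : ((J : ℝ) + 2) * ((T : ℝ) + 2) * (2 : ℝ) ^ (g * (C0 * C0)) ≤ 200 * h := by
      exact_mod_cast h1
    have h3 : X ≤ (T : ℝ) + 2 := by linarith
    have h4 : ((J : ℝ) + 2) * (2 : ℝ) ^ (g * (C0 * C0)) * X ≤ 200 * h * Y := by
      calc ((J : ℝ) + 2) * (2 : ℝ) ^ (g * (C0 * C0)) * X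
          ≤ ((J : ℝ) + 2) * (2 : ℝ) ^ (g * (C0 * C0)) * ((T : ℝ) + 2) := by gcongr
        _ = ((J : ℝ) + 2) * ((T : ℝ) + 2) * (2 : ℝ) ^ (g * (C0 * C0)) := by ring
        _ ≤ 200 * h := h2
        _ = 200 * h * 1 := by ring
        _ ≤ 200 * h * Y := by gcongr
    calc ((J : ℝ) + 2) * (2 : ℝ) ^ (g * (C0 * C0)) ≤ 200 * h * Y / X := by
          rw [le_div_iff₀ hX0]; exact h4
      _ = 200 * (Y / X) * h := by ring
  -- few divisors
  have hF := hfew (l + s) J R ht2 htC htg w hw0 hw1 x h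
  have hF' : (((Ioc x (x + h)).filter (fun n => omP (PR (l + s) g) n < R)).card : ℝ) ≤
      (2 * (Real.exp (1 + D) * (16 * c2 * c3)) + 200) * (1 + Λ) ^ R * (Y / X) * h := by
    have h1 : w ^ R * (1 + Λ) ^ R = 1 := by
      rw [← mul_pow, hw, one_div, inv_mul_cancel₀ (by linarith), one_pow]
    set N : ℝ := (((Ioc x (x + h)).filter (fun n => omP (PR (l + s) g) n < R)).card : ℝ) with hN
    have h2 : N * w ^ R ≤ (2 * (Real.exp (1 + D) * (16 * c2 * c3)) + 200) * (Y / X) * h := by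
      have h3 : (h : ℝ) * Real.exp (-(1 - w) * (L - D)) ≤
          h * (Real.exp (1 + D) * (16 * c2 * c3 * (Y / X))) := by gcongr
      calc N * w ^ R ≤ 2 * (h * Real.exp (-(1 - w) * (L - D))) +
            ((J : ℝ) + 2) * (2 : ℝ) ^ (g * (C0 * C0)) := hF
        _ ≤ 2 * (h * (Real.exp (1 + D) * (16 * c2 * c3 * (Y / X)))) + 200 * (Y / X) * h := by
            linarith
        _ = _ := by ring
    calc N = N * w ^ R * (1 + Λ) ^ R := by rw [mul_assoc, h1, mul_one]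
      _ ≤ (2 * (Real.exp (1 + D) * (16 * c2 * c3)) + 200) * (Y / X) * h * (1 + Λ) ^ R := by gcongr
      _ = _ := by ring
  -- the other integers
  have hxs : x ≤ h * 2 ^ s := by
    refine hxh.trans (Nat.mul_le_mul_left h (hu2.le.trans ?_))
    exact Nat.pow_le_pow_right (by norm_num) (by omega)
  set e : ℝ := 2 / 2 ^ E with he
  have he0 : 0 < e := by positivity
  have hE1 : 1 ≤ E := by
    rw [hE]
    exact Nat.mul_pos (by omega) (by omega)
  have he1 : e ≤ 1 := by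
    rw [he, div_le_one (by positivity)]
    calc (2 : ℝ) = 2 ^ 1 := (pow_one _).symm
      _ ≤ 2 ^ E := pow_le_pow_right₀ (by norm_num) hE1
  have hel : (2 / e) ^ (2 ^ R) ≤ (2 : ℝ) ^ l := by
    have h1 : 2 / e = 2 ^ E := by
      rw [he]
      field_simp
    rw [h1, ← pow_mul]
  have hsg : s ≤ g := by omega
  have hVc : ∀ V ∈ W, (((Ioc x (x + h)).filter (fun n : ℕ => R ≤ omP (PR (l + s) g) n ∧
      ¬ IsGenericRow V (fun _ : Fin 1 => Real.log n))).card : ℝ) ≤
      e * ((g : ℝ) + 1) ^ R * (R + 2) * h := by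
    intro V hV
    refine count_short (Finset.filter_subset _ _) ?_ e he0 he1 hel hxs hgR hsg
      (fun n hn => (Finset.mem_filter.1 hn).2.1)
    refine hR V (hWV V hV).1 (hWV V hV).2 _ (fun n hn => ?_)
      (fun n hn => (Finset.mem_filter.1 hn).2.2)
    exact lt_of_le_of_lt (Nat.zero_le _) (Finset.mem_Ioc.1 (Finset.mem_filter.1 hn).1).1
  have hsub : (Ioc x (x + h)).filter (fun n : ℕ => ∃ V ∈ W,
      ¬ IsGenericRow V (fun _ : Fin 1 => Real.log n)) ⊆
      (Ioc x (x + h)).filter (fun n => omP (PR (l + s) g) n < R) ∪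
        W.biUnion (fun V => (Ioc x (x + h)).filter (fun n : ℕ => R ≤ omP (PR (l + s) g) n ∧
          ¬ IsGenericRow V (fun _ : Fin 1 => Real.log n))) := by
    intro n hn
    rw [Finset.mem_filter] at hn
    obtain ⟨hn1, V, hV, hn2⟩ := hn
    rw [Finset.mem_union]
    rcases Nat.lt_or_ge (omP (PR (l + s) g) n) R with h1 | h1
    · exact Or.inl (Finset.mem_filter.2 ⟨hn1, h1⟩)
    · exact Or.inr (Finset.mem_biUnion.2 ⟨V, hV, Finset.mem_filter.2 ⟨hn1, h1, hn2⟩⟩)
  have hcard := (Finset.card_le_card hsub).trans ((Finset.card_union_le _ _).trans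
    (Nat.add_le_add_left Finset.card_biUnion_le _))
  have hcard' : (((Ioc x (x + h)).filter (fun n : ℕ => ∃ V ∈ W,
      ¬ IsGenericRow V (fun _ : Fin 1 => Real.log n))).card : ℝ) ≤
      (2 * (Real.exp (1 + D) * (16 * c2 * c3)) + 200) * (1 + Λ) ^ R * (Y / X) * h +
        ∑ V ∈ W, e * ((g : ℝ) + 1) ^ R * (R + 2) * h := by
    refine le_trans (b := ((((Ioc x (x + h)).filter (fun n => omP (PR (l + s) g) n < R)).card : ℝ) +
      ∑ V ∈ W, (((Ioc x (x + h)).filter (fun n : ℕ => R ≤ omP (PR (l + s) g) n ∧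
        ¬ IsGenericRow V (fun _ : Fin 1 => Real.log n))).card : ℝ))) ?_ ?_
    · exact_mod_cast hcard
    · exact add_le_add hF' (Finset.sum_le_sum hVc)
  refine hcard'.trans ?_
  have hp2 : ∑ V ∈ W, e * ((g : ℝ) + 1) ^ R * (R + 2) * h ≤ 2 * (R + 2) * (Y / X) * h := by
    rw [Finset.sum_const, nsmul_eq_mul]
    set B : ℝ := (2 : ℝ) ^ (u + 2) with hB
    have hB0 : 0 < B := by positivity
    have hB1 : 1 ≤ B := one_le_pow₀ (by norm_num)
    have h1 : (W.card : ℝ) ≤ B ^ m := by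
      have e1 : (W.card : ℝ) ≤ (y : ℝ) ^ m := by exact_mod_cast hW
      have e2 : (y : ℝ) ≤ B := by
        have e3 : (y : ℝ) ≤ 2 ^ (u + 1) := by exact_mod_cast hu2.le
        exact e3.trans (pow_le_pow_right₀ (by norm_num) (by omega))
      exact e1.trans (pow_le_pow_left₀ (Nat.cast_nonneg _) e2 m)
    have h2 : (g : ℝ) + 1 ≤ B := by
      have e1 : g ≤ T := by nlinarith
      have e2 : (g : ℝ) ≤ T := by exact_mod_cast e1
      linarith
    have h3 : (2 : ℝ) ^ E = B ^ m * B ^ R * B := by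
      rw [hB, hE, ← pow_mul, ← pow_mul, ← pow_add, ← pow_add]
      congr 1
      ring
    have h4 : 1 / B ≤ Y / X := by
      rw [div_le_div_iff₀ hB0 hX0]
      have : X ≤ B := b1.trans b7
      nlinarith
    calc (W.card : ℝ) * (e * ((g : ℝ) + 1) ^ R * (R + 2) * h)
        ≤ B ^ m * (e * B ^ R * (R + 2) * h) := by gcongr
      _ = 2 * (R + 2) * (1 / B) * h := by
          rw [he, h3]
          field_simp
      _ ≤ _ := by gcongr
  have hp3 : 2 * (R + 2) * (Y / X) * h ≤ 2 * (R + 2) * (1 + Λ) ^ R * (Y / X) * h := by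
    calc 2 * ((R : ℝ) + 2) * (Y / X) * h = 2 * (R + 2) * 1 * (Y / X) * h := by ring
      _ ≤ _ := by gcongr
  have hp4 : 0 ≤ c4 * (1 + Λ) ^ R * (Y / X) * h := by positivity
  have hfin : (2 * (Real.exp (1 + D) * (16 * c2 * c3)) + 200 + 2 * (R + 2) + c4) * (1 + Λ) ^ R *
      (Y / X) * h = (2 * (Real.exp (1 + D) * (16 * c2 * c3)) + 200) * (1 + Λ) ^ R * (Y / X) * h +
        2 * (R + 2) * (1 + Λ) ^ R * (Y / X) * h + c4 * (1 + Λ) ^ R * (Y / X) * h := by ring
  rw [hK, hfin]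
  linarith

end Pool.Agent.V8H74.SI
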