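import Pool.Agent.V8H74.SI.Count

/-!
# Short intervals
-/

set_option autoImplicit false

namespace Pool.Agent.V8H74.SI

open Finset Module Pool.Agent.TH813.Rough Pool.Agent.TH681.QC
open Pool.Agent.Results.MP_bbc1fa_nt.GenericRow (IsGenericRow)

theorem decay (c ε : ℝ) (R : ℕ) (hε : 0 < ε) : ∃ E0 : ℕ, ∀ E : ℕ, E0 ≤ E →
    c * (((E : ℝ) + 1) ^ R * (3 / 4 : ℝ) ^ E) ≤ ε := by
  have h1 := tendsto_pow_const_mul_const_pow_of_abs_lt_one R
    (show |(3 / 4 : ℝ)| < 1 by rw [abs_of_pos (by norm_num)]; norm_num)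
  have h2 := (h1.comp (Filter.tendsto_add_atTop_nat 1)).const_mul (c * (4 / 3))
  rw [mul_zero] at h2
  obtain ⟨E0, hE0⟩ := Filter.eventually_atTop.1 (h2.eventually (gt_mem_nhds hε))
  refine ⟨E0, fun E hE => le_trans (le_of_eq ?_) (hE0 E hE).le⟩
  simp only [Function.comp_apply]
  push_cast
  rw [pow_succ]
  ring

open Classical in
theorem short (m : ℕ) (ε : ℝ) (hε : 0 < ε) : ∃ η : ℝ, 0 < η ∧ η ≤ 1 / 2 ∧ ∃ x₀ : ℕ, ∀ x : ℕ, x₀ ≤ x →
    ∀ h : ℕ, (x : ℝ) ^ (1 - η) ≤ h → ∀ W : Finset (Submodule ℚ ℝ), (W.card : ℝ) ≤ (x : ℝ) ^ η →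
    (∀ V ∈ W, Module.Finite ℚ V ∧ finrank ℚ V ≤ m) →
    (((Ioc x (x + h)).filter (fun n : ℕ => ∃ V ∈ W,
      ¬ IsGenericRow V (fun _ : Fin 1 => Real.log n))).card : ℝ) ≤ ε * h := by
  obtain ⟨R, hR⟩ := nocube m
  obtain ⟨D, hD⟩ := mu_large
  set Λ : ℝ := max 1 (max (2 * (R : ℝ)) (32 / ε)) + |D| with hΛ
  obtain ⟨K, hK⟩ := exists_nat_ge ((8 * R + 16) * Real.exp Λ)
  have hΛ0 : 0 < Λ := by
    have : (1 : ℝ) ≤ max 1 (max (2 * (R : ℝ)) (32 / ε)) := le_max_left _ _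
    have := abs_nonneg D
    linarith
  have hexp : 1 ≤ Real.exp Λ := Real.one_le_exp hΛ0.le
  have hR0 : (0 : ℝ) ≤ R := Nat.cast_nonneg _
  have hK1 : (8 * R + 16 : ℝ) ≤ K := by nlinarith
  have hK1' : 8 * R + 16 ≤ K := by exact_mod_cast hK1
  have hK0 : (0 : ℝ) < K := by linarith
  set M : ℕ := K * 2 ^ R with hM
  have h2R : 1 ≤ 2 ^ R := Nat.one_le_two_pow
  have hKM : K ≤ M := Nat.le_mul_of_pos_right K (by omega)
  have hM0 : 0 < M := by omega
  have hM0' : (0 : ℝ) < M := by exact_mod_cast hM0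
  obtain ⟨E0, hE0⟩ := decay (4 * (R + 2) * (M : ℝ) ^ R) (ε / 2) R (by positivity)
  set η : ℝ := 1 / (8 * M) with hη
  have hη0 : 0 < η := by positivity
  have hη1 : η ≤ 1 / 2 := by
    have : (1 : ℝ) ≤ M := by exact_mod_cast hM0
    rw [hη]
    apply one_div_le_one_div_of_le (by norm_num)
    linarith
  refine ⟨η, hη0, hη1, 2 ^ (M * (E0 + 1) + 8 * M), fun x hx h hh W hW hWV => ?_⟩
  set T := Nat.log 2 x with hT
  have hx0 : x ≠ 0 := by
    have : 0 < 2 ^ (M * (E0 + 1) + 8 * M) := by positivity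
    omega
  have hT1 : 2 ^ T ≤ x := Nat.pow_log_le_self 2 hx0
  have hT2 : x < 2 ^ (T + 1) := Nat.lt_pow_succ_log_self (by norm_num) x
  have hTbig : M * (E0 + 1) + 8 * M ≤ T := by
    have : 2 ^ (M * (E0 + 1) + 8 * M) < 2 ^ (T + 1) := lt_of_le_of_lt hx hT2
    have := (Nat.pow_lt_pow_iff_right (by norm_num : 1 < 2)).1 this
    omega
  clear_value T
  have hxpos : (0 : ℝ) < x := by exact_mod_cast Nat.pos_of_ne_zero hx0
  set E := T / M with hE
  have hEE0 : E0 + 1 ≤ E := by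
    rw [hE, Nat.le_div_iff_mul_le hM0]
    have : (E0 + 1) * M = M * (E0 + 1) := Nat.mul_comm _ _
    omega
  have hEM : E * M ≤ T := Nat.div_mul_le_self T M
  have hTE : T < M * (E + 1) := Nat.lt_mul_div_succ T hM0
  clear_value E
  set s := E / 8 + 1 with hs
  set l := E * 2 ^ R with hl
  set g := T / (2 * R + 4) with hg
  have hg1 : g * (2 * R + 4) ≤ T := Nat.div_mul_le_self T _
  have hg2 : T < (2 * R + 4) * (g + 1) := Nat.lt_mul_div_succ T (by omega)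
  clear_value g
  have hKl : K * l ≤ T := by
    have : K * l = E * M := by rw [hl, hM]; ring
    omega
  -- real versions
  have hT0 : (0 : ℝ) ≤ T := Nat.cast_nonneg _
  have hTK : (8 : ℝ) * K ≤ T := by
    have : 8 * K ≤ T := by omega
    exact_mod_cast this
  have hsT : (8 : ℝ) * M * (s - 1) ≤ T := by
    have h1 : 8 * (E / 8) ≤ E := Nat.mul_div_le E 8
    have h2 : 8 * (E / 8) * M ≤ T := (Nat.mul_le_mul_right M h1).trans hEM
    have h3 : ((8 * (E / 8) * M : ℕ) : ℝ) ≤ T := by exact_mod_cast h2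
    rw [hs]
    push_cast at h3 ⊢
    linarith
  have hKM' : (K : ℝ) ≤ M := by exact_mod_cast hKM
  have hs1 : (1 : ℝ) ≤ s := by rw [hs]; push_cast; linarith [Nat.cast_nonneg (α := ℝ) (E / 8)]
  have hKs : (8 : ℝ) * K * (s - 1) ≤ T := by nlinarith
  have ht : (K : ℝ) * ((l + s : ℕ) : ℝ) ≤ 2 * T := by
    have h1 : (K : ℝ) * l ≤ T := by exact_mod_cast hKl
    push_cast
    nlinarith
  have hgT : (T : ℝ) ≤ (4 * R + 8) * g := by
    have h1 : 4 * R + 8 ≤ T := by omega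
    have h2 : (T : ℝ) < (2 * R + 4) * (g + 1) := by exact_mod_cast hg2
    have h3 : ((4 * R + 8 : ℕ) : ℝ) ≤ T := by exact_mod_cast h1
    push_cast at h3
    linarith
  have ht2 : 2 ≤ l + s := by
    have : 1 ≤ l := by
      rw [hl]
      exact Nat.mul_pos (by omega) (by omega)
    omega
  have ht0 : (0 : ℝ) < ((l + s : ℕ) : ℝ) := by exact_mod_cast (by omega : 0 < l + s)
  have hgt : (8 * R + 16 : ℝ) * Real.exp Λ * ((l + s : ℕ) : ℝ) ≤ (8 * R + 16) * g := by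
    calc (8 * R + 16 : ℝ) * Real.exp Λ * ((l + s : ℕ) : ℝ) ≤ K * ((l + s : ℕ) : ℝ) :=
          mul_le_mul_of_nonneg_right hK ht0.le
      _ ≤ 2 * T := ht
      _ ≤ _ := by linarith
  have hgt' : Real.exp Λ * ((l + s : ℕ) : ℝ) ≤ g := by
    have h1 : (0 : ℝ) < 8 * R + 16 := by positivity
    have h2 : (8 * R + 16 : ℝ) * (Real.exp Λ * ((l + s : ℕ) : ℝ)) ≤ (8 * R + 16) * g := by linarith
    exact le_of_mul_le_mul_left h2 h1
  have htg : l + s ≤ g := by
    have h1 : ((l + s : ℕ) : ℝ) ≤ g := by nlinarith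
    exact_mod_cast h1
  have hμ := hD (l + s) g ht2 htg
  set μ : ℝ := ∑ p ∈ PR (l + s) g, (1 : ℝ) / p with hμd
  have hμΛ : max 1 (max (2 * (R : ℝ)) (32 / ε)) ≤ μ := by
    have h1 : Λ ≤ Real.log ((g : ℝ) / ((l + s : ℕ) : ℝ)) := by
      rw [Real.le_log_iff_exp_le]
      · rw [le_div_iff₀ ht0]
        exact hgt'
      · have : (0 : ℝ) < g := lt_of_lt_of_le (by positivity) hgt'
        positivity
    have h2 := le_abs_self D
    linarith
  have hμ1 : 1 ≤ μ := (le_max_left _ _).trans hμΛ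
  have hμR : 2 * (R : ℝ) ≤ μ := (le_max_left _ _).trans ((le_max_right _ _).trans hμΛ)
  have hμε : 32 / ε ≤ μ := (le_max_right _ _).trans ((le_max_right _ _).trans hμΛ)
  -- the size of `h`
  have hh2 : (2 : ℝ) ^ ((T : ℝ) / 2) ≤ h := by
    refine le_trans ?_ hh
    calc (2 : ℝ) ^ ((T : ℝ) / 2) ≤ (2 : ℝ) ^ ((T : ℝ) * (1 - η)) :=
          Real.rpow_le_rpow_of_exponent_le (by norm_num) (by nlinarith)
      _ = ((2 : ℝ) ^ T) ^ (1 - η) := by
          rw [Real.rpow_mul (by norm_num), Real.rpow_natCast]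
      _ ≤ (x : ℝ) ^ (1 - η) := by
          refine Real.rpow_le_rpow (by positivity) (by exact_mod_cast hT1) (by linarith)
  have hpow : ∀ n : ℕ, 2 * n ≤ T → (2 : ℝ) ^ n ≤ h := by
    intro n hn
    refine le_trans ?_ hh2
    rw [← Real.rpow_natCast]
    refine Real.rpow_le_rpow_of_exponent_le (by norm_num) ?_
    have : ((2 * n : ℕ) : ℝ) ≤ T := by exact_mod_cast hn
    push_cast at this
    linarith
  have hgR : 2 ^ (g * R) ≤ h := by
    have h1 := hpow (g * R) (by nlinarith)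
    exact_mod_cast h1
  have hPh : ((PR (l + s) g).card : ℝ) ^ 2 ≤ h := by
    have h1 := hpow (g * 2) (by nlinarith)
    have h2 : ((PR (l + s) g).card : ℝ) ≤ 2 ^ g := by exact_mod_cast PR_card (l + s) g
    calc ((PR (l + s) g).card : ℝ) ^ 2 ≤ (2 ^ g) ^ 2 := by gcongr
      _ = 2 ^ (g * 2) := (pow_mul 2 g 2).symm
      _ ≤ h := h1
  have hxη : (x : ℝ) ^ η ≤ 2 ^ s := by
    have h1 : (x : ℝ) ≤ (2 : ℝ) ^ ((T : ℝ) + 1) := by
      have : (x : ℝ) ≤ (2 : ℝ) ^ (T + 1) := by exact_mod_cast hT2.le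
      rw [← Real.rpow_natCast] at this
      push_cast at this
      exact this
    calc (x : ℝ) ^ η ≤ ((2 : ℝ) ^ ((T : ℝ) + 1)) ^ η := Real.rpow_le_rpow hxpos.le h1 hη0.le
      _ = (2 : ℝ) ^ (((T : ℝ) + 1) * η) := by rw [← Real.rpow_mul (by norm_num)]
      _ ≤ (2 : ℝ) ^ (s : ℝ) := by
          refine Real.rpow_le_rpow_of_exponent_le (by norm_num) ?_
          rw [hη, mul_one_div, div_le_iff₀ (by positivity)]
          have h2 : T + 1 ≤ s * (8 * M) := by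
            have h3 : E < 8 * (E / 8 + 1) := Nat.lt_mul_div_succ E (by norm_num)
            have h4 : E + 1 ≤ 8 * s := by omega
            calc T + 1 ≤ M * (E + 1) := hTE
              _ ≤ M * (8 * s) := Nat.mul_le_mul_left M h4
              _ = s * (8 * M) := by ring
          exact_mod_cast h2
      _ = 2 ^ s := Real.rpow_natCast 2 s
  have hxh : x ≤ h * 2 ^ s := by
    have h1 : (x : ℝ) ≤ h * 2 ^ s := by
      calc (x : ℝ) = (x : ℝ) ^ (1 - η) * (x : ℝ) ^ η := by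
            rw [← Real.rpow_add hxpos]
            norm_num
        _ ≤ h * 2 ^ s := mul_le_mul hh hxη (by positivity) (by positivity)
    exact_mod_cast h1
  have hh0 : (0 : ℝ) ≤ h := Nat.cast_nonneg _
  set e : ℝ := 2 / 2 ^ E with he
  have he0 : 0 < e := by positivity
  have he1 : e ≤ 1 := by
    rw [he, div_le_one (by positivity)]
    calc (2 : ℝ) = 2 ^ 1 := (pow_one _).symm
      _ ≤ 2 ^ E := pow_le_pow_right₀ (by norm_num) (by omega)
  have hel : (2 / e) ^ (2 ^ R) ≤ (2 : ℝ) ^ l := by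
    have h1 : 2 / e = 2 ^ E := by
      rw [he]
      field_simp
    rw [h1, ← pow_mul]
  have hsg : s ≤ g := by omega
  have hfew := few_divisors (PR (l + s) g) (fun p hp => PR_prime hp) x h R hμ1 hμR hPh
  have hVc : ∀ V ∈ W, (((Ioc x (x + h)).filter (fun n : ℕ => R ≤ omP (PR (l + s) g) n ∧
      ¬ IsGenericRow V (fun _ : Fin 1 => Real.log n))).card : ℝ) ≤
      e * ((g : ℝ) + 1) ^ R * (R + 2) * h := by
    intro V hV
    refine count_short (Finset.filter_subset _ _) ?_ e he0 he1 hel hxh hgR hsg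
      (fun n hn => (Finset.mem_filter.1 hn).2.1)
    refine hR V (hWV V hV).1 (hWV V hV).2 _ (fun n hn => ?_)
      (fun n hn => (Finset.mem_filter.1 hn).2.2)
    have := (Finset.mem_Ioc.1 (Finset.mem_filter.1 hn).1).1
    omega
  have hsub : (Ioc x (x + h)).filter (fun n : ℕ => ∃ V ∈ W,
      ¬ IsGenericRow V (fun _ : Fin 1 => Real.log n)) ⊆
      (Ioc x (x + h)).filter (fun n => omP (PR (l + s) g) n < R) ∪
        W.biUnion (fun V => (Ioc x (x + h)).filter (fun n : ℕ => R ≤ omP (PR (l + s) g) n ∧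
          ¬ IsGenericRow V (fun _ : Fin 1 => Real.log n))) := by
    intro n hn
    rw [Finset.mem_filter] at hn
    obtain ⟨hn1, V, hV, hn2⟩ := hn
    rw [Finset.mem_union]
    rcases Nat.lt_or_ge (omP (PR (l + s) g) n) R with h1 | h1
    · exact Or.inl (Finset.mem_filter.2 ⟨hn1, h1⟩)
    · exact Or.inr (Finset.mem_biUnion.2 ⟨V, hV, Finset.mem_filter.2 ⟨hn1, h1, hn2⟩⟩)
  have hcard := (Finset.card_le_card hsub).trans ((Finset.card_union_le _ _).trans
    (Nat.add_le_add_left Finset.card_biUnion_le _))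
  have hcard' : (((Ioc x (x + h)).filter (fun n : ℕ => ∃ V ∈ W,
      ¬ IsGenericRow V (fun _ : Fin 1 => Real.log n))).card : ℝ) ≤
      16 * h / μ + ∑ V ∈ W, e * ((g : ℝ) + 1) ^ R * (R + 2) * h := by
    refine le_trans (b := ((((Ioc x (x + h)).filter (fun n => omP (PR (l + s) g) n < R)).card : ℝ) +
      ∑ V ∈ W, (((Ioc x (x + h)).filter (fun n : ℕ => R ≤ omP (PR (l + s) g) n ∧
        ¬ IsGenericRow V (fun _ : Fin 1 => Real.log n))).card : ℝ))) ?_ ?_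
    · exact_mod_cast hcard
    · exact add_le_add hfew (Finset.sum_le_sum hVc)
  refine hcard'.trans ?_
  have hp1 : 16 * (h : ℝ) / μ ≤ ε / 2 * h := by
    rw [div_le_iff₀ (by linarith)]
    have h1 : 32 ≤ μ * ε := by rwa [div_le_iff₀ hε] at hμε
    nlinarith
  have hp2 : ∑ V ∈ W, e * ((g : ℝ) + 1) ^ R * (R + 2) * h ≤ ε / 2 * h := by
    rw [Finset.sum_const, nsmul_eq_mul]
    have hg' : (g : ℝ) + 1 ≤ M * ((E : ℝ) + 1) := by
      have h1 : g + 1 ≤ M * (E + 1) := by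
        have h2 : g ≤ T := by nlinarith
        omega
      exact_mod_cast h1
    have h34 : (2 : ℝ) ^ s * e ≤ 4 * (3 / 4 : ℝ) ^ E := by
      have h1 : (2 : ℝ) ^ (E / 8) ≤ (3 / 2 : ℝ) ^ E := by
        calc (2 : ℝ) ^ (E / 8) ≤ ((3 / 2 : ℝ) ^ 8) ^ (E / 8) :=
              pow_le_pow_left₀ (by norm_num) (by norm_num) _
          _ = (3 / 2 : ℝ) ^ (8 * (E / 8)) := (pow_mul _ _ _).symm
          _ ≤ (3 / 2 : ℝ) ^ E := pow_le_pow_right₀ (by norm_num) (Nat.mul_div_le E 8)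
      have h2 : (3 / 4 : ℝ) ^ E = (3 / 2 : ℝ) ^ E / 2 ^ E := by
        rw [← div_pow]
        norm_num
      rw [he, hs, pow_succ, h2]
      calc (2 : ℝ) ^ (E / 8) * 2 * (2 / 2 ^ E) = 4 * ((2 : ℝ) ^ (E / 8) / 2 ^ E) := by ring
        _ ≤ 4 * ((3 / 2 : ℝ) ^ E / 2 ^ E) := by gcongr
    have h5 := hE0 E (by omega)
    calc (W.card : ℝ) * (e * ((g : ℝ) + 1) ^ R * (R + 2) * h)
        ≤ 2 ^ s * (e * (M * ((E : ℝ) + 1)) ^ R * (R + 2) * h) := by
          have h6 : (W.card : ℝ) ≤ 2 ^ s := hW.trans hxη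
          gcongr
      _ = (2 ^ s * e) * ((R + 2) * (M * ((E : ℝ) + 1)) ^ R * h) := by ring
      _ ≤ (4 * (3 / 4 : ℝ) ^ E) * ((R + 2) * (M * ((E : ℝ) + 1)) ^ R * h) := by gcongr
      _ = (4 * (R + 2) * (M : ℝ) ^ R * (((E : ℝ) + 1) ^ R * (3 / 4 : ℝ) ^ E)) * h := by
          rw [mul_pow]
          ring
      _ ≤ ε / 2 * h := by gcongr
  linarith

end Pool.Agent.V8H74.SI
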