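import Mathlib
import Pool.Agent.Erdos456.Mertens

/-!
# Integers in short intervals with few prime divisors in a range
-/

set_option autoImplicit false

namespace Pool.Agent.V8H74.SI

open Finset

/-- the number of multiples of `d` in an interval -/
theorem card_dvd (x h d : ℕ) (hd : 0 < d) :
    (((Ioc x (x + h)).filter (fun n => d ∣ n)).card : ℝ) ≤ (h : ℝ) / d + 1 ∧
    (h : ℝ) / d - 1 ≤ (((Ioc x (x + h)).filter (fun n => d ∣ n)).card : ℝ) := by
  have h1 := Nat.Ioc_filter_dvd_card_eq_div (x + h) d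
  have h2 := Nat.Ioc_filter_dvd_card_eq_div x d
  have h3 : ((Ioc 0 (x + h)).filter (fun n => d ∣ n)).card =
      ((Ioc 0 x).filter (fun n => d ∣ n)).card + ((Ioc x (x + h)).filter (fun n => d ∣ n)).card := by
    rw [← Finset.card_union_of_disjoint, ← Finset.filter_union,
      Finset.Ioc_union_Ioc_eq_Ioc (Nat.zero_le x) (Nat.le_add_right x h)]
    refine Finset.disjoint_filter_filter ?_
    rw [Finset.disjoint_left]
    intro n hn hn'
    rw [mem_Ioc] at hn hn'
    omega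
  have hd0 : (0 : ℝ) < d := by exact_mod_cast hd
  have h4 : ((x / d : ℕ) : ℝ) ≤ (x : ℝ) / d := Nat.cast_div_le
  have h5 : (((x + h) / d : ℕ) : ℝ) ≤ ((x : ℝ) + h) / d := by
    have := Nat.cast_div_le (α := ℝ) (m := x + h) (n := d)
    push_cast at this
    exact this
  have h6 : (x : ℝ) / d < ((x / d : ℕ) : ℝ) + 1 := by
    rw [div_lt_iff₀ hd0, mul_comm]
    exact_mod_cast Nat.lt_mul_div_succ x hd
  have h7 : ((x : ℝ) + h) / d < (((x + h) / d : ℕ) : ℝ) + 1 := by
    rw [div_lt_iff₀ hd0, mul_comm]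
    exact_mod_cast Nat.lt_mul_div_succ (x + h) hd
  have h8 : (((Ioc x (x + h)).filter (fun n => d ∣ n)).card : ℝ) =
      (((x + h) / d : ℕ) : ℝ) - ((x / d : ℕ) : ℝ) := by
    rw [← h1, ← h2, h3]
    push_cast
    ring
  rw [h8]
  have h9 : ((x : ℝ) + h) / d = x / d + h / d := add_div _ _ _
  constructor <;> linarith

/-- number of divisors in `P` -/
def omP (P : Finset ℕ) (n : ℕ) : ℕ := (P.filter (fun p => p ∣ n)).card

theorem omP_eq (P : Finset ℕ) (n : ℕ) : (omP P n : ℝ) = ∑ p ∈ P, if p ∣ n then (1 : ℝ) else 0 := by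
  unfold omP
  rw [Finset.card_filter]
  push_cast
  rfl

theorem turan (P : Finset ℕ) (hP : ∀ p ∈ P, p.Prime) (x h : ℕ) :
    ∑ n ∈ Ioc x (x + h), ((omP P n : ℝ) - ∑ p ∈ P, (1 : ℝ) / p) ^ 2 ≤
      h * (∑ p ∈ P, (1 : ℝ) / p) + 3 * (P.card : ℝ) ^ 2 := by
  set μ : ℝ := ∑ p ∈ P, (1 : ℝ) / p with hμ
  set N : ℝ := (P.card : ℝ) with hN
  have hN0 : 0 ≤ N := Nat.cast_nonneg _
  have hμ0 : 0 ≤ μ := Finset.sum_nonneg fun p _ => by positivity
  have hμN : μ ≤ N := by
    rw [hμ, hN, Finset.card_eq_sum_ones]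
    push_cast
    refine Finset.sum_le_sum fun p hp => ?_
    have : (1 : ℝ) ≤ p := by exact_mod_cast (hP p hp).one_lt.le
    rw [div_le_one (by linarith)]
    exact this
  have hcount : ∀ d : ℕ, ∑ n ∈ Ioc x (x + h), (if d ∣ n then (1 : ℝ) else 0) =
      (((Ioc x (x + h)).filter (fun n => d ∣ n)).card : ℝ) := fun d => by
    rw [Finset.card_filter]
    push_cast
    rfl
  have h1 : h * μ - N ≤ ∑ n ∈ Ioc x (x + h), (omP P n : ℝ) := by
    have e1 : ∑ n ∈ Ioc x (x + h), (omP P n : ℝ) =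
        ∑ p ∈ P, (((Ioc x (x + h)).filter (fun n => p ∣ n)).card : ℝ) := by
      simp only [omP_eq]
      rw [Finset.sum_comm]
      exact Finset.sum_congr rfl fun p _ => hcount p
    rw [e1]
    have e2 : h * μ - N = ∑ p ∈ P, ((h : ℝ) / p - 1) := by
      rw [Finset.sum_sub_distrib, hμ, Finset.mul_sum, hN, Finset.card_eq_sum_ones]
      push_cast
      congr 1
      exact Finset.sum_congr rfl fun p _ => by ring
    rw [e2]
    exact Finset.sum_le_sum fun p hp => (card_dvd x h p (hP p hp).pos).2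
  have h2 : ∑ n ∈ Ioc x (x + h), (omP P n : ℝ) ^ 2 ≤ h * μ ^ 2 + N ^ 2 + h * μ := by
    have e1 : ∑ n ∈ Ioc x (x + h), (omP P n : ℝ) ^ 2 =
        ∑ p ∈ P, ∑ q ∈ P, (((Ioc x (x + h)).filter (fun n => p ∣ n ∧ q ∣ n)).card : ℝ) := by
      simp only [omP_eq, sq, Finset.sum_mul_sum]
      rw [Finset.sum_comm]
      refine Finset.sum_congr rfl fun p _ => ?_
      rw [Finset.sum_comm]
      refine Finset.sum_congr rfl fun q _ => ?_
      rw [Finset.card_filter]
      push_cast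
      refine Finset.sum_congr rfl fun n _ => ?_
      by_cases hp : p ∣ n <;> by_cases hq : q ∣ n <;> simp [hp, hq]
    have e2 : h * μ ^ 2 + N ^ 2 + h * μ =
        ∑ p ∈ P, ∑ q ∈ P, ((h : ℝ) * (1 / p * (1 / q)) + 1 + if p = q then (h : ℝ) * (1 / p) else 0) := by
      have e3 : ∀ p ∈ P, ∑ q ∈ P, ((h : ℝ) * (1 / p * (1 / q)) + 1 +
          if p = q then (h : ℝ) * (1 / p) else 0) = (h : ℝ) * (1 / p) * μ + N + h * (1 / p) := by
        intro p hp
        rw [Finset.sum_add_distrib, Finset.sum_add_distrib, Finset.sum_ite_eq, if_pos hp, hμ, hN,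
          Finset.card_eq_sum_ones, Finset.mul_sum]
        push_cast
        congr 2
        exact Finset.sum_congr rfl fun q _ => by ring
      rw [Finset.sum_congr rfl e3, Finset.sum_add_distrib, Finset.sum_add_distrib, ← Finset.sum_mul,
        ← Finset.mul_sum, Finset.sum_const, nsmul_eq_mul, ← hμ, ← hN]
      ring
    rw [e1, e2]
    refine Finset.sum_le_sum fun p hp => Finset.sum_le_sum fun q hq => ?_
    by_cases hpq : p = q
    · subst hpq
      rw [if_pos rfl]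
      have h3 := (card_dvd x h p (hP p hp).pos).1
      have h4 : (Ioc x (x + h)).filter (fun n => p ∣ n ∧ p ∣ n) =
          (Ioc x (x + h)).filter (fun n => p ∣ n) := by
        simp
      rw [h4]
      have h5 : (0 : ℝ) ≤ (h : ℝ) * (1 / p * (1 / p)) := by positivity
      have h6 : (h : ℝ) / p = h * (1 / p) := by ring
      linarith
    · rw [if_neg hpq]
      have hc : Nat.Coprime p q := (Nat.coprime_primes (hP p hp) (hP q hq)).2 hpq
      have h4 : (Ioc x (x + h)).filter (fun n => p ∣ n ∧ q ∣ n) =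
          (Ioc x (x + h)).filter (fun n => p * q ∣ n) := by
        refine Finset.filter_congr fun n _ => ?_
        exact ⟨fun h => hc.mul_dvd_of_dvd_of_dvd h.1 h.2,
          fun h => ⟨dvd_trans (Dvd.intro _ rfl) h, dvd_trans (Dvd.intro_left _ rfl) h⟩⟩
      rw [h4]
      have h3 := (card_dvd x h (p * q) (Nat.mul_pos (hP p hp).pos (hP q hq).pos)).1
      have h6 : (h : ℝ) / ((p * q : ℕ) : ℝ) = h * (1 / p * (1 / q)) := by
        push_cast
        rw [div_eq_mul_inv, mul_inv]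
        ring
      rw [h6] at h3
      linarith
  have h3 : ∑ n ∈ Ioc x (x + h), ((omP P n : ℝ) - μ) ^ 2 =
      ∑ n ∈ Ioc x (x + h), (omP P n : ℝ) ^ 2 - 2 * μ * ∑ n ∈ Ioc x (x + h), (omP P n : ℝ) +
        h * μ ^ 2 := by
    have e1 : ∀ n, ((omP P n : ℝ) - μ) ^ 2 = (omP P n : ℝ) ^ 2 - 2 * μ * omP P n + μ ^ 2 :=
      fun n => by ring
    simp only [e1]
    rw [Finset.sum_add_distrib, Finset.sum_sub_distrib, ← Finset.mul_sum, Finset.sum_const,
      Nat.card_Ioc, Nat.add_sub_cancel_left, nsmul_eq_mul]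
  rw [h3]
  have h4 : 2 * μ * (h * μ - N) ≤ 2 * μ * ∑ n ∈ Ioc x (x + h), (omP P n : ℝ) :=
    mul_le_mul_of_nonneg_left h1 (by positivity)
  nlinarith

/-- few integers have fewer than `R` prime divisors in `P` -/
theorem few_divisors (P : Finset ℕ) (hP : ∀ p ∈ P, p.Prime) (x h R : ℕ)
    (hμ1 : 1 ≤ ∑ p ∈ P, (1 : ℝ) / p) (hμR : 2 * (R : ℝ) ≤ ∑ p ∈ P, (1 : ℝ) / p)
    (hPh : (P.card : ℝ) ^ 2 ≤ h) :
    (((Ioc x (x + h)).filter (fun n => omP P n < R)).card : ℝ) ≤
      16 * h / ∑ p ∈ P, (1 : ℝ) / p := by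
  have h1 := turan P hP x h
  set μ : ℝ := ∑ p ∈ P, (1 : ℝ) / p with hμ
  set S := (Ioc x (x + h)).filter (fun n => omP P n < R) with hS
  have h2 : (S.card : ℝ) * (μ ^ 2 / 4) ≤ ∑ n ∈ Ioc x (x + h), ((omP P n : ℝ) - μ) ^ 2 := by
    calc (S.card : ℝ) * (μ ^ 2 / 4) = ∑ n ∈ S, μ ^ 2 / 4 := by rw [Finset.sum_const, nsmul_eq_mul]
      _ ≤ ∑ n ∈ S, ((omP P n : ℝ) - μ) ^ 2 := by
          refine Finset.sum_le_sum fun n hn => ?_
          have h3 : (omP P n : ℝ) ≤ R := by exact_mod_cast (Finset.mem_filter.1 hn).2.le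
          have h4 : μ / 2 ≤ μ - omP P n := by linarith
          have h5 : 0 ≤ μ / 2 := by linarith
          nlinarith
      _ ≤ _ := Finset.sum_le_sum_of_subset_of_nonneg (Finset.filter_subset _ _)
          (fun n _ _ => sq_nonneg _)
  have hh0 : (0 : ℝ) ≤ h := Nat.cast_nonneg _
  have hμ0 : 0 < μ := by linarith
  have h3 : (S.card : ℝ) * (μ ^ 2 / 4) ≤ 4 * h * μ := by nlinarith
  rw [le_div_iff₀ hμ0]
  have h4 : (S.card : ℝ) * μ * μ ≤ 16 * h * μ := by nlinarith
  exact le_of_mul_le_mul_right h4 hμ0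

end Pool.Agent.V8H74.SI
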