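import Pool.Agent.H20R2.EN.FLem
import Pool.Agent.V8H74.SI.Turan

/-!
# The sieve upper bound for integers with few prime divisors in short intervals
-/

set_option autoImplicit false

namespace Pool.Agent.V8H74.SI

open Finset

/-- the number of subsets with small product -/
theorem card_small (P : Finset ℕ) (hP : ∀ p ∈ P, p.Prime) (D : ℕ) :
    (P.powerset.filter (fun T : Finset ℕ => ∏ p ∈ T, p ≤ D)).card ≤ D := by
  have h1 : (P.powerset.filter (fun T : Finset ℕ => ∏ p ∈ T, p ≤ D)).card ≤ (Icc 1 D).card := by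
    refine Finset.card_le_card_of_injOn (fun T => ∏ p ∈ T, p) ?_ ?_
    · intro T hT
      rw [Finset.mem_coe, Finset.mem_filter, Finset.mem_powerset] at hT
      rw [Finset.mem_coe, Finset.mem_Icc]
      exact ⟨Finset.prod_pos fun p hp => (hP p (hT.1 hp)).pos, hT.2⟩
    · intro T hT T' hT' h
      rw [Finset.mem_coe, Finset.mem_filter, Finset.mem_powerset] at hT hT'
      have e1 : ∀ U : Finset ℕ, U ⊆ P → (∏ p ∈ U, p).primeFactors = U := fun U hU =>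
        Nat.primeFactors_prod fun p hp => hP p (hU hp)
      rw [← e1 T hT.1, ← e1 T' hT'.1]
      exact congrArg _ h
  rwa [Nat.card_Icc, Nat.add_sub_cancel] at h1

/-- integers without prime divisors in `P` -/
theorem sieve_zero : ∃ C0 : ℕ, 1 ≤ C0 ∧ ∀ (J : ℕ) (P : Finset ℕ),
    (∀ p ∈ P, p.Prime ∧ C0 < p ∧ p ≤ 2 ^ 2 ^ J) → ∀ x h : ℕ,
    (((Ioc x (x + h)).filter (fun n => ∀ p ∈ P, ¬ p ∣ n)).card : ℝ) ≤
      2 * (h * ∏ p ∈ P, (1 - 1 / (p : ℝ))) + ((J : ℝ) + 2) * ((2 : ℝ) ^ 2 ^ J) ^ (C0 * C0) := by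
  obtain ⟨C0, hC0, H⟩ := Pool.Agent.H20R2.fLem 1
  refine ⟨C0, hC0, fun J P hP x h => ?_⟩
  have h1 := H C0 J C0 P (fun p => 1 / (p : ℝ)) le_rfl le_rfl hP (fun p hp => by
    have h2 : (1 : ℝ) < p := by exact_mod_cast (hP p hp).1.one_lt
    refine ⟨by positivity, ?_⟩
    push_cast
    apply one_div_le_one_div_of_le <;> linarith)
    (Ioc x (x + h)) (fun _ => 1) (fun p n => p ∣ n) h (fun _ => 1) (fun _ _ => zero_le_one)
    (Nat.cast_nonneg _) (by
      intro T hT _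
      have hTp : ∀ p ∈ T, p.Prime := fun p hp => (hP p (hT hp)).1
      have e1 : (Ioc x (x + h)).filter (fun n => ∀ p ∈ T, p ∣ n) =
          (Ioc x (x + h)).filter (fun n => (∏ p ∈ T, p) ∣ n) := by
        refine Finset.filter_congr fun n _ => ⟨fun h3 => ?_, fun h3 p hp =>
          (Finset.dvd_prod_of_mem _ hp).trans h3⟩
        apply Finset.prod_dvd_of_isRelPrime
        · intro p hp q hq hpq
          exact Nat.coprime_iff_isRelPrime.1 ((Nat.coprime_primes (hTp p hp) (hTp q hq)).2 hpq)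
        · exact h3
      have h4 := card_dvd x h (∏ p ∈ T, p) (Finset.prod_pos fun p hp => (hTp p hp).pos)
      rw [Finset.sum_const, nsmul_eq_mul, mul_one]
      have e3 : ∀ inst : DecidablePred (fun n => ∀ p ∈ T, p ∣ n),
          ((Finset.card (@Finset.filter ℕ (fun n => ∀ p ∈ T, p ∣ n) inst (Ioc x (x + h))) : ℕ) : ℝ) =
          (((Ioc x (x + h)).filter (fun n => (∏ p ∈ T, p) ∣ n)).card : ℝ) := by
        intro inst
        rw [← e1]
        congr!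
      rw [e3]
      have e2 : (h : ℝ) * ∏ p ∈ T, (1 / (p : ℝ)) = (h : ℝ) / ((∏ p ∈ T, p : ℕ) : ℝ) := by
        push_cast
        rw [Finset.prod_div_distrib, Finset.prod_const_one, mul_one_div]
      rw [e2, abs_le]
      constructor <;> linarith [h4.1, h4.2])
  rw [Finset.sum_const, nsmul_eq_mul, mul_one, Finset.sum_const, nsmul_eq_mul, mul_one] at h1
  have h2 := (abs_le.1 h1).2
  have e4 : ∀ inst : DecidablePred (fun n => ∀ p ∈ P, ¬ p ∣ n),
      ((Finset.card (@Finset.filter ℕ (fun n => ∀ p ∈ P, ¬ p ∣ n) inst (Ioc x (x + h))) : ℕ) : ℝ) =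
      (((Ioc x (x + h)).filter (fun n => ∀ p ∈ P, ¬ p ∣ n)).card : ℝ) := by
    intro inst
    congr!
  have e5 : ∀ inst : DecidablePred (fun T : Finset ℕ => ∏ p ∈ T, p ≤ (2 ^ 2 ^ J) ^ (C0 * C0)),
      ((Finset.card (@Finset.filter (Finset ℕ) (fun T => ∏ p ∈ T, p ≤ (2 ^ 2 ^ J) ^ (C0 * C0))
      inst P.powerset) : ℕ) : ℝ) =
      ((P.powerset.filter (fun T : Finset ℕ => ∏ p ∈ T, p ≤ (2 ^ 2 ^ J) ^ (C0 * C0))).card : ℝ) := by
    intro inst
    congr!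
  have h3 : (0 : ℝ) ≤ h * ∏ p ∈ P, (1 - 1 / (p : ℝ)) := by
    refine mul_nonneg (Nat.cast_nonneg _) (Finset.prod_nonneg fun p hp => ?_)
    have h2 : (1 : ℝ) < p := by exact_mod_cast (hP p hp).1.one_lt
    rw [sub_nonneg, div_le_one (by linarith)]
    exact h2.le
  have h4 : (1 / 2 : ℝ) ^ C0 ≤ 1 := pow_le_one₀ (by norm_num) (by norm_num)
  have h5 : ((P.powerset.filter (fun T : Finset ℕ => ∏ p ∈ T, p ≤ (2 ^ 2 ^ J) ^ (C0 * C0))).card : ℝ) ≤
      ((2 : ℝ) ^ 2 ^ J) ^ (C0 * C0) := by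
    exact_mod_cast card_small P (fun p hp => (hP p hp).1) ((2 ^ 2 ^ J) ^ (C0 * C0))
  have h6 : (1 / 2 : ℝ) ^ C0 * (h * ∏ p ∈ P, (1 - 1 / (p : ℝ))) ≤
      1 * (h * ∏ p ∈ P, (1 - 1 / (p : ℝ))) := mul_le_mul_of_nonneg_right h4 h3
  have h7 : ((J : ℝ) + 2) * ((P.powerset.filter (fun T : Finset ℕ =>
      ∏ p ∈ T, p ≤ (2 ^ 2 ^ J) ^ (C0 * C0))).card : ℝ) ≤
      ((J : ℝ) + 2) * ((2 : ℝ) ^ 2 ^ J) ^ (C0 * C0) :=
    mul_le_mul_of_nonneg_left h5 (by positivity)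
  rw [e5] at h2
  have h8 := le_trans h2 (add_le_add h6 h7)
  have h9 : (((Ioc x (x + h)).filter (fun n => ∀ p ∈ P, ¬ p ∣ n)).card : ℝ) -
      h * ∏ p ∈ P, (1 - 1 / (p : ℝ)) ≤
      1 * (h * ∏ p ∈ P, (1 - 1 / (p : ℝ))) + ((J : ℝ) + 2) * ((2 : ℝ) ^ 2 ^ J) ^ (C0 * C0) := by
    convert h8 using 3 <;> first | rfl | congr!
  linarith

/-- the average of `w ^ ω` in a short interval -/
theorem sieve_avg : ∃ C0 : ℕ, 1 ≤ C0 ∧ ∀ (J : ℕ) (P : Finset ℕ),
    (∀ p ∈ P, p.Prime ∧ C0 < p ∧ p ≤ 2 ^ 2 ^ J) → ∀ w : ℝ, 0 ≤ w → w ≤ 1 → ∀ x h : ℕ,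
    ∑ n ∈ Ioc x (x + h), w ^ omP P n ≤
      2 * (h * ∏ p ∈ P, (1 - (1 - w) / (p : ℝ))) +
        ((J : ℝ) + 2) * ((2 : ℝ) ^ 2 ^ J) ^ (C0 * C0) := by
  obtain ⟨C0, hC0, H⟩ := sieve_zero
  refine ⟨C0, hC0, fun J P hP w hw0 hw1 x h => ?_⟩
  set E : ℝ := ((J : ℝ) + 2) * ((2 : ℝ) ^ 2 ^ J) ^ (C0 * C0) with hE
  -- the two identities
  have e1 : ∀ n, w ^ omP P n = ∑ T ∈ P.powerset, ((1 - w) ^ T.card * w ^ (P \ T).card) *
      (if ∀ p ∈ T, ¬ p ∣ n then (1 : ℝ) else 0) := by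
    intro n
    have h1 := Finset.prod_add (fun p => (1 - w) * (if ¬ p ∣ n then (1 : ℝ) else 0)) (fun _ => w) P
    have h2 : ∏ p ∈ P, ((1 - w) * (if ¬ p ∣ n then (1 : ℝ) else 0) + w) = w ^ omP P n := by
      unfold omP
      rw [← Finset.prod_const, Finset.prod_filter]
      refine Finset.prod_congr rfl fun p _ => ?_
      by_cases hp : p ∣ n <;> simp [hp]
    rw [← h2, h1]
    refine Finset.sum_congr rfl fun T _ => ?_
    rw [Finset.prod_mul_distrib, Finset.prod_const, Finset.prod_const]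
    have h3 : ∏ p ∈ T, (if ¬ p ∣ n then (1 : ℝ) else 0) = if ∀ p ∈ T, ¬ p ∣ n then (1 : ℝ) else 0 := by
      by_cases h4 : ∀ p ∈ T, ¬ p ∣ n
      · rw [if_pos h4]
        exact Finset.prod_eq_one fun p hp => if_pos (h4 p hp)
      · rw [if_neg h4]
        push Not at h4
        obtain ⟨p, hp, hpn⟩ := h4
        exact Finset.prod_eq_zero hp (if_neg (not_not.2 hpn))
    rw [h3]
    ring
  have e2 : ∏ p ∈ P, (1 - (1 - w) / (p : ℝ)) = ∑ T ∈ P.powerset,
      ((1 - w) ^ T.card * w ^ (P \ T).card) * ∏ p ∈ T, (1 - 1 / (p : ℝ)) := by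
    have h1 := Finset.prod_add (fun p : ℕ => (1 - w) * (1 - 1 / (p : ℝ))) (fun _ => w) P
    have h2 : ∏ p ∈ P, ((1 - w) * (1 - 1 / (p : ℝ)) + w) = ∏ p ∈ P, (1 - (1 - w) / (p : ℝ)) :=
      Finset.prod_congr rfl fun p _ => by ring
    rw [← h2, h1]
    refine Finset.sum_congr rfl fun T _ => ?_
    rw [Finset.prod_mul_distrib, Finset.prod_const, Finset.prod_const]
    ring
  have e3 : ∑ T ∈ P.powerset, ((1 - w) ^ T.card * w ^ (P \ T).card) = 1 := by
    have h1 := Finset.prod_add (fun _ : ℕ => (1 - w)) (fun _ => w) P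
    simp only [Finset.prod_const] at h1
    rw [← h1, sub_add_cancel, one_pow]
  calc ∑ n ∈ Ioc x (x + h), w ^ omP P n
      = ∑ T ∈ P.powerset, ((1 - w) ^ T.card * w ^ (P \ T).card) *
        (((Ioc x (x + h)).filter (fun n => ∀ p ∈ T, ¬ p ∣ n)).card : ℝ) := by
        simp only [e1]
        rw [Finset.sum_comm]
        refine Finset.sum_congr rfl fun T _ => ?_
        rw [← Finset.mul_sum, Finset.card_filter]
        push_cast
        rfl
    _ ≤ ∑ T ∈ P.powerset, ((1 - w) ^ T.card * w ^ (P \ T).card) *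
        (2 * (h * ∏ p ∈ T, (1 - 1 / (p : ℝ))) + E) := by
        refine Finset.sum_le_sum fun T hT => ?_
        have hc : 0 ≤ (1 - w) ^ T.card * w ^ (P \ T).card :=
          mul_nonneg (pow_nonneg (by linarith) _) (pow_nonneg hw0 _)
        exact mul_le_mul_of_nonneg_left
          (H J T (fun p hp => hP p (Finset.mem_powerset.1 hT hp)) x h) hc
    _ = 2 * (h * ∏ p ∈ P, (1 - (1 - w) / (p : ℝ))) + E := by
        rw [e2]
        simp only [mul_add]
        rw [Finset.sum_add_distrib, ← Finset.sum_mul, e3, one_mul, Finset.mul_sum, Finset.mul_sum]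
        congr 1
        refine Finset.sum_congr rfl fun T _ => ?_
        ring

end Pool.Agent.V8H74.SI
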