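import Pool.Agent.V8H74.SI.Short

/-!
# Tuples in short intervals
-/

set_option autoImplicit false

namespace Pool.Agent.V8H74.SI

open Finset Module
open Pool.Agent.Results.MP_bbc1fa_nt.GenericRow (IsGenericRow)

theorem generic_zero (V : Submodule ℚ ℝ) (y : Fin 0 → ℝ) : IsGenericRow V y := by
  have h0 : Submodule.span ℚ (Set.range y) = ⊥ := by
    rw [Set.range_eq_empty, Submodule.span_empty]
  refine ⟨by rw [h0, sup_bot_eq, Nat.add_zero], ?_⟩
  intro M _ hM0 hex _ _ _
  obtain ⟨j, hj⟩ := hex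
  apply hj
  have := hM0 j
  rwa [h0, sup_bot_eq] at this

theorem generic_tower (V : Submodule ℚ ℝ) {k : ℕ} (y : Fin (k + 1) → ℝ)
    (h1 : IsGenericRow V (fun _ : Fin 1 => y 0))
    (h2 : IsGenericRow (V ⊔ Submodule.span ℚ {y 0}) (fun i : Fin k => y i.succ)) :
    IsGenericRow V y := by
  have hr1 : Set.range (fun _ : Fin 1 => y 0) = {y 0} := by
    ext z
    simp
  have hr : Set.range y = insert (y 0) (Set.range fun i : Fin k => y i.succ) := by
    ext z
    constructor
    · rintro ⟨i, rfl⟩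
      refine Fin.cases ?_ (fun j => ?_) i
      · exact Set.mem_insert _ _
      · exact Set.mem_insert_of_mem _ ⟨j, rfl⟩
    · rintro (rfl | ⟨i, rfl⟩)
      · exact ⟨0, rfl⟩
      · exact ⟨_, rfl⟩
  have hspan : V ⊔ Submodule.span ℚ (Set.range y) =
      V ⊔ Submodule.span ℚ {y 0} ⊔ Submodule.span ℚ (Set.range fun i : Fin k => y i.succ) := by
    rw [hr, Submodule.span_insert, sup_assoc]
  have hd1 := h1.1
  rw [hr1] at hd1
  refine ⟨?_, ?_⟩
  · rw [hspan, h2.1, hd1]
    ring
  · intro M hMalg hM0 hV hrow hcol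
    rw [hspan] at hM0
    by_cases hex : ∃ j, M 0 j ∉ (V ⊔ Submodule.span ℚ {y 0} : Submodule ℚ ℝ)
    · exact h2.2 M hMalg hM0 hex hrow hcol
    · push Not at hex
      refine h1.2 M hMalg (fun j => ?_) hV hrow hcol
      rw [hr1]
      exact hex j

open Classical in
theorem tuples (k : ℕ) : ∀ (m : ℕ) (ε : ℝ), 0 < ε → ∃ η : ℝ, 0 < η ∧ ∃ x₀ : ℕ,
    ∀ x h : Fin k → ℕ, (∀ i, x₀ ≤ x i) → (∀ i, (x i : ℝ) ^ (1 - η) ≤ h i) →
    ∀ W : Finset (Submodule ℚ ℝ), (∀ i, (W.card : ℝ) ≤ (x i : ℝ) ^ η) →
    (∀ V ∈ W, Module.Finite ℚ V ∧ finrank ℚ V ≤ m) →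
    (((Fintype.piFinset (fun i => Ioc (x i) (x i + h i))).filter (fun a : Fin k → ℕ => ∃ V ∈ W,
      ¬ IsGenericRow V (fun i => Real.log (a i)))).card : ℝ) ≤ ε * ∏ i, (h i : ℝ) := by
  induction k with
  | zero =>
    intro m ε hε
    refine ⟨1, one_pos, 0, fun x h _ _ W _ _ => ?_⟩
    have : (Fintype.piFinset (fun i => Ioc (x i) (x i + h i))).filter (fun a : Fin 0 → ℕ =>
        ∃ V ∈ W, ¬ IsGenericRow V (fun i => Real.log (a i))) = ∅ := by
      rw [Finset.filter_eq_empty_iff]
      rintro a _ ⟨V, _, hV⟩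
      exact hV (generic_zero V _)
    rw [this]
    simp [hε.le]
  | succ k ih =>
    intro m ε hε
    obtain ⟨η1, hη1, -, x1, h1⟩ := short m (ε / 2) (by positivity)
    obtain ⟨η2, hη2, x2, h2⟩ := ih (m + 1) (ε / 2) (by positivity)
    refine ⟨min η1 η2, lt_min hη1 hη2, max 1 (max x1 x2), fun x h hx hh W hW hWV => ?_⟩
    have hx1 : ∀ i, (1 : ℝ) ≤ x i := fun i => by
      exact_mod_cast (le_max_left _ _).trans (hx i)
    have hup : ∀ (i : Fin (k + 1)) (η : ℝ), min η1 η2 ≤ η →
        (x i : ℝ) ^ (1 - η) ≤ h i ∧ (W.card : ℝ) ≤ (x i : ℝ) ^ η := fun i η hη =>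
      ⟨(Real.rpow_le_rpow_of_exponent_le (hx1 i) (by linarith)).trans (hh i),
        (hW i).trans (Real.rpow_le_rpow_of_exponent_le (hx1 i) hη)⟩
    set B := (Fintype.piFinset (fun i => Ioc (x i) (x i + h i))).filter
      (fun a : Fin (k + 1) → ℕ => ∃ V ∈ W, ¬ IsGenericRow V (fun i => Real.log (a i))) with hB
    set bad := (Ioc (x 0) (x 0 + h 0)).filter (fun n : ℕ => ∃ V ∈ W,
      ¬ IsGenericRow V (fun _ : Fin 1 => Real.log n)) with hbad
    have hbadc : (bad.card : ℝ) ≤ ε / 2 * h 0 :=
      h1 (x 0) ((le_max_left _ _).trans ((le_max_right _ _).trans (hx 0))) (h 0)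
        (hup 0 η1 (min_le_left _ _)).1 W (hup 0 η1 (min_le_left _ _)).2 hWV
    set Q : ℝ := ∏ i : Fin k, (h i.succ : ℝ) with hQ
    have hQ0 : 0 ≤ Q := Finset.prod_nonneg fun i _ => Nat.cast_nonneg _
    have hprod : ∏ i, (h i : ℝ) = h 0 * Q := Fin.prod_univ_succ _
    -- the fibres
    have hfib : B.card = ∑ n ∈ Ioc (x 0) (x 0 + h 0), (B.filter (fun a => a 0 = n)).card := by
      apply Finset.card_eq_sum_card_fiberwise
      intro a ha
      exact (Fintype.mem_piFinset.1 (Finset.mem_filter.1 ha).1) 0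
    have hinj : ∀ n, Set.InjOn (fun a : Fin (k + 1) → ℕ => fun i : Fin k => a i.succ)
        (B.filter (fun a => a 0 = n)) := by
      intro n a ha b hb hab
      have ha0 := (Finset.mem_filter.1 (Finset.mem_coe.1 ha)).2
      have hb0 := (Finset.mem_filter.1 (Finset.mem_coe.1 hb)).2
      funext i
      refine Fin.cases ?_ (fun j => ?_) i
      · rw [ha0, hb0]
      · exact congrFun hab j
    have hall : ∀ n, ((B.filter (fun a => a 0 = n)).card : ℝ) ≤ Q := by
      intro n
      have h3 : (B.filter (fun a => a 0 = n)).card ≤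
          (Fintype.piFinset (fun i : Fin k => Ioc (x i.succ) (x i.succ + h i.succ))).card := by
        refine Finset.card_le_card_of_injOn _ ?_ (hinj n)
        intro a ha
        have ha' := Fintype.mem_piFinset.1
          (Finset.mem_filter.1 (Finset.mem_filter.1 (Finset.mem_coe.1 ha)).1).1
        exact Finset.mem_coe.2 (Fintype.mem_piFinset.2 fun i => ha' i.succ)
      rw [Fintype.card_piFinset] at h3
      have h4 : ∏ i : Fin k, (Ioc (x i.succ) (x i.succ + h i.succ)).card = ∏ i : Fin k, h i.succ :=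
        Finset.prod_congr rfl fun i _ => by rw [Nat.card_Ioc, Nat.add_sub_cancel_left]
      rw [h4] at h3
      rw [hQ]
      exact_mod_cast h3
    have hgood : ∀ n ∈ Ioc (x 0) (x 0 + h 0), n ∉ bad →
        ((B.filter (fun a => a 0 = n)).card : ℝ) ≤ ε / 2 * Q := by
      intro n hn hnb
      set W' : Finset (Submodule ℚ ℝ) :=
        W.image (fun V => V ⊔ Submodule.span ℚ {Real.log n}) with hW'
      have hW'c : (W'.card : ℝ) ≤ W.card := by exact_mod_cast Finset.card_image_le
      have h3 := h2 (fun i => x i.succ) (fun i => h i.succ)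
        (fun i => (le_max_right _ _).trans ((le_max_right _ _).trans (hx i.succ)))
        (fun i => (hup i.succ η2 (min_le_right _ _)).1) W'
        (fun i => hW'c.trans (hup i.succ η2 (min_le_right _ _)).2) (by
          intro V' hV'
          obtain ⟨V, hV, rfl⟩ := Finset.mem_image.1 hV'
          have hf := (hWV V hV).1
          refine ⟨inferInstance, ?_⟩
          refine (Submodule.finrank_add_le_finrank_add_finrank _ _).trans ?_
          have h4 := finrank_span_finset_le_card (R := ℚ) ({Real.log (n : ℝ)} : Finset ℝ)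
          rw [Finset.coe_singleton, Finset.card_singleton] at h4
          exact Nat.add_le_add (hWV V hV).2 h4)
      refine le_trans ?_ h3
      have h5 : (B.filter (fun a => a 0 = n)).card ≤
          ((Fintype.piFinset (fun i : Fin k => Ioc (x i.succ) (x i.succ + h i.succ))).filter
            (fun a : Fin k → ℕ => ∃ V ∈ W', ¬ IsGenericRow V (fun i => Real.log (a i)))).card := by
        refine Finset.card_le_card_of_injOn _ ?_ (hinj n)
        intro a ha
        have ha1 := Finset.mem_filter.1 (Finset.mem_coe.1 ha)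
        have ha2 := Finset.mem_filter.1 ha1.1
        have ha' := Fintype.mem_piFinset.1 ha2.1
        refine Finset.mem_coe.2 (Finset.mem_filter.2
          ⟨Fintype.mem_piFinset.2 fun i => ha' i.succ, ?_⟩)
        obtain ⟨V, hV, hVa⟩ := ha2.2
        refine ⟨V ⊔ Submodule.span ℚ {Real.log n}, Finset.mem_image_of_mem _ hV, fun hg => hVa ?_⟩
        have h6 : IsGenericRow V (fun _ : Fin 1 => Real.log n) := by
          by_contra hno
          exact hnb (Finset.mem_filter.2 ⟨hn, V, hV, hno⟩)
        refine generic_tower V (fun i => Real.log (a i)) ?_ ?_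
        · simp only [ha1.2]
          exact h6
        · simp only [ha1.2]
          exact hg
      exact_mod_cast h5
    have hsum : (B.card : ℝ) ≤ ∑ n ∈ Ioc (x 0) (x 0 + h 0),
        ((if n ∈ bad then Q else 0) + ε / 2 * Q) := by
      rw [hfib]
      push_cast
      refine Finset.sum_le_sum fun n hn => ?_
      have hε2 : 0 ≤ ε / 2 * Q := by positivity
      split_ifs with hb
      · linarith [hall n]
      · linarith [hgood n hn hb]
    refine hsum.trans ?_
    rw [Finset.sum_add_distrib, Finset.sum_const, Nat.card_Ioc, Nat.add_sub_cancel_left,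
      nsmul_eq_mul, hprod]
    have h7 : ∑ n ∈ Ioc (x 0) (x 0 + h 0), (if n ∈ bad then Q else 0) = bad.card * Q := by
      rw [← Finset.sum_filter, Finset.sum_const, nsmul_eq_mul]
      congr 2
      congr 1
      ext n
      rw [Finset.mem_filter]
      exact ⟨fun h => h.2, fun h => ⟨(Finset.mem_filter.1 h).1, h⟩⟩
    rw [h7]
    have h8 : (bad.card : ℝ) * Q ≤ ε / 2 * h 0 * Q := mul_le_mul_of_nonneg_right hbadc hQ0
    linarith

end Pool.Agent.V8H74.SI
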